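import Pool.Agent.Work.MP_bec1e1_lv_helper15.Defs

/-!
# Linear variance of the LCS: API for `ind`, `Ex`, `Exc`, `Exs` (block EXC)

* `ind`: indicator, union bound, Markov.
* `Exc k s g T f`: mean over lists of `T` independent cells (words of length `s` with density `g`).
* `Exs k s T f`: uniform cells; `Exs_flatten : Exs k s T (f o flatten) = Ex k (T * s) f`.
* `Exl k cs f`: mean over lists of uniform words of prescribed lengths `cs` (windows);
  `Exl_flatten : Exl k cs (f o flatten) = Ex k cs.sum f`; `wins cs y`: the windows of `y`.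
* `Exc_Exl_prod`: cells against windows of prescribed lengths, product formula.
-/

set_option autoImplicit false
set_option maxHeartbeats 400000

open Filter Topology
open scoped BigOperators

namespace Pool.Agent.LCSV

open Pool.Agent.LCSE

noncomputable section

/-! ### indicators -/

section indic

variable {P Q R : Prop}

@[simp] lemma ind_true : ind True = 1 := by simp [ind]

@[simp] lemma ind_false : ind False = 0 := by simp [ind]

lemma ind_of (h : P) : ind P = 1 := by simp [ind, h]

lemma ind_of_not (h : ¬ P) : ind P = 0 := by simp [ind, h]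

lemma ind_nonneg (P : Prop) : 0 ≤ ind P := by unfold ind; split_ifs <;> norm_num

lemma ind_le_one (P : Prop) : ind P ≤ 1 := by unfold ind; split_ifs <;> norm_num

lemma ind_mono (h : P → Q) : ind P ≤ ind Q := by
  by_cases hP : P
  · rw [ind_of hP, ind_of (h hP)]
  · rw [ind_of_not hP]; exact ind_nonneg _

lemma ind_congr (h : P ↔ Q) : ind P = ind Q := by rw [propext h]

lemma ind_eq_ite (P : Prop) [Decidable P] : ind P = if P then 1 else 0 := by
  by_cases h : P <;> simp [ind, h]

lemma ind_eq_zero_or_one (P : Prop) : ind P = 0 ∨ ind P = 1 := by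
  by_cases h : P
  · exact Or.inr (ind_of h)
  · exact Or.inl (ind_of_not h)

lemma ind_eq_one_iff : ind P = 1 ↔ P := by
  by_cases h : P <;> simp [ind, h]

lemma ind_eq_zero_iff : ind P = 0 ↔ ¬ P := by
  by_cases h : P <;> simp [ind, h]

lemma ind_pos_iff : 0 < ind P ↔ P := by
  by_cases h : P <;> simp [ind, h]

lemma ind_and (P Q : Prop) : ind (P ∧ Q) = ind P * ind Q := by
  by_cases h : P <;> by_cases h' : Q <;> simp [ind, h, h']

lemma ind_not (P : Prop) : ind (¬ P) = 1 - ind P := by
  by_cases h : P <;> simp [ind, h]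

lemma ind_add_not (P : Prop) : ind P + ind (¬ P) = 1 := by rw [ind_not]; ring

lemma ind_or_le (P Q : Prop) : ind (P ∨ Q) ≤ ind P + ind Q := by
  by_cases h : P <;> by_cases h' : Q <;> simp [ind, h, h']

lemma ind_mul_self (P : Prop) : ind P * ind P = ind P := by
  by_cases h : P <;> simp [ind, h]

lemma ind_sq (P : Prop) : ind P ^ 2 = ind P := by rw [sq, ind_mul_self]

lemma ind_le_add (h : P → Q ∨ R) : ind P ≤ ind Q + ind R := (ind_mono h).trans (ind_or_le _ _)

lemma ind_le_add₃ {S : Prop} (h : P → Q ∨ R ∨ S) : ind P ≤ ind Q + ind R + ind S := by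
  have h1 := ind_le_add h
  have h2 := ind_or_le R S
  linarith

lemma ind_exists_mem_le {ι : Type*} (s : Finset ι) (P : ι → Prop) :
    ind (∃ i ∈ s, P i) ≤ ∑ i ∈ s, ind (P i) := by
  by_cases h : ∃ i ∈ s, P i
  · obtain ⟨i, hi, hP⟩ := h
    rw [ind_of ⟨i, hi, hP⟩, ← ind_of hP]
    exact Finset.single_le_sum (f := fun i => ind (P i)) (fun i _ => ind_nonneg _) hi
  · rw [ind_of_not h]; exact Finset.sum_nonneg fun i _ => ind_nonneg _

lemma ind_exists_fin_le {ι : Type*} [Fintype ι] (P : ι → Prop) :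
    ind (∃ i, P i) ≤ ∑ i, ind (P i) := by
  have := ind_exists_mem_le (Finset.univ : Finset ι) P
  simpa using this

lemma ind_exists_lt_le (n : ℕ) (P : ℕ → Prop) :
    ind (∃ i, i < n ∧ P i) ≤ ∑ i ∈ Finset.range n, ind (P i) := by
  have := ind_exists_mem_le (Finset.range n) P
  simpa using this

/-- Markov, pointwise -/
lemma ind_le_div {t x : ℝ} (ht : 0 < t) (hx : 0 ≤ x) : ind (t ≤ x) ≤ x / t := by
  by_cases h : t ≤ x
  · rw [ind_of h]; exact (one_le_div ht).mpr h
  · rw [ind_of_not h]; positivity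

lemma ind_lt_le_div {t x : ℝ} (ht : 0 < t) (hx : 0 ≤ x) : ind (t < x) ≤ x / t :=
  (ind_mono le_of_lt).trans (ind_le_div ht hx)

lemma mul_ind_le {t x : ℝ} (hx : 0 ≤ x) : t * ind (t ≤ x) ≤ x := by
  by_cases h : t ≤ x
  · rw [ind_of h, mul_one]; exact h
  · rw [ind_of_not h, mul_zero]; exact hx

/-- Chebyshev, pointwise -/
lemma ind_le_sq_div {t x : ℝ} (ht : 0 < t) : ind (t ≤ |x|) ≤ x ^ 2 / t ^ 2 := by
  by_cases h : t ≤ |x|
  · rw [ind_of h, one_le_div (by positivity)]
    rw [← sq_abs x]
    exact pow_le_pow_left₀ ht.le h 2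
  · rw [ind_of_not h]; positivity

/-- Chernoff, pointwise -/
lemma ind_le_exp {z t x : ℝ} (hz : 0 ≤ z) : ind (t ≤ x) ≤ Real.exp (-(z * t)) * Real.exp (z * x) := by
  by_cases h : t ≤ x
  · rw [ind_of h, ← Real.exp_add]
    apply Real.one_le_exp
    nlinarith
  · rw [ind_of_not h]; positivity

end indic

/-! ### more on `Ex` -/

section Ex

variable {k : ℕ}

lemma Ex_one (hk : 0 < k) (n : ℕ) : Ex k n (fun _ => (1 : ℝ)) = 1 := Ex_const hk n 1

/-- one letter -/
lemma Ex_one_letter (f : List (Fin k) → ℝ) : Ex k 1 f = (∑ c : Fin k, f [c]) / k := rfl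

/-- the last letter -/
lemma Ex_succ' (n : ℕ) (f : List (Fin k) → ℝ) :
    Ex k (n + 1) f = Ex k n fun w => (∑ c : Fin k, f (w ++ [c])) / k := by
  rw [Ex_append]
  rfl

lemma Ex_div (n : ℕ) (f : List (Fin k) → ℝ) (c : ℝ) :
    Ex k n (fun w => f w / c) = Ex k n f / c := by
  simp only [div_eq_mul_inv]
  exact Ex_mul_const _ _ _

lemma Ex_abs_le (n : ℕ) (f : List (Fin k) → ℝ) : |Ex k n f| ≤ Ex k n fun w => |f w| := by
  rw [abs_le]
  constructor
  · rw [← Ex_neg]
    exact Ex_mono fun w _ => neg_abs_le _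
  · exact Ex_mono fun w _ => le_abs_self _

/-- the law is invariant under reversal -/
lemma Ex_reverse (n : ℕ) (f : List (Fin k) → ℝ) :
    Ex k n (fun w => f w.reverse) = Ex k n f := by
  induction n generalizing f with
  | zero => rfl
  | succ n ih =>
    rw [Ex_succ']
    have h1 : ∀ w : List (Fin k), (∑ c : Fin k, f (w ++ [c]).reverse) / k =
        ∑ c : Fin k, (fun w => f (c :: w) / k) w.reverse := by
      intro w
      rw [Finset.sum_div]
      simp
    simp only [h1]
    rw [Ex_finset_sum, Ex_succ, Finset.sum_div]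
    refine Finset.sum_congr rfl fun c _ => ?_
    rw [← Ex_div]
    exact ih fun w => f (c :: w) / k

/-- probabilities -/
lemma Ex_ind_nonneg (n : ℕ) (P : List (Fin k) → Prop) : 0 ≤ Ex k n fun w => ind (P w) :=
  Ex_nonneg fun _ _ => ind_nonneg _

lemma Ex_ind_le_one (hk : 0 < k) (n : ℕ) (P : List (Fin k) → Prop) :
    (Ex k n fun w => ind (P w)) ≤ 1 := Ex_le_const hk fun _ _ => ind_le_one _

lemma Ex_ind_not (hk : 0 < k) (n : ℕ) (P : List (Fin k) → Prop) :
    (Ex k n fun w => ind (¬ P w)) = 1 - Ex k n fun w => ind (P w) := by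
  simp only [ind_not]
  rw [Ex_sub, Ex_const hk]

lemma Ex_ind_mono {n : ℕ} {P Q : List (Fin k) → Prop} (h : ∀ w, w.length = n → P w → Q w) :
    (Ex k n fun w => ind (P w)) ≤ Ex k n fun w => ind (Q w) :=
  Ex_mono fun w hw => ind_mono (h w hw)

lemma Ex_ind_or_le (n : ℕ) (P Q : List (Fin k) → Prop) :
    (Ex k n fun w => ind (P w ∨ Q w)) ≤ (Ex k n fun w => ind (P w)) + Ex k n fun w => ind (Q w) := by
  rw [← Ex_add]
  exact Ex_mono fun w _ => ind_or_le _ _

lemma Ex_ind_exists_mem_le {ι : Type*} (s : Finset ι) (n : ℕ) (P : ι → List (Fin k) → Prop) :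
    (Ex k n fun w => ind (∃ i ∈ s, P i w)) ≤ ∑ i ∈ s, Ex k n fun w => ind (P i w) := by
  rw [← Ex_finset_sum]
  exact Ex_mono fun w _ => ind_exists_mem_le _ _

/-- if an event has positive probability then it happens -/
lemma exists_of_Ex_pos {n : ℕ} {P : List (Fin k) → Prop} (h : 0 < Ex k n fun w => ind (P w)) :
    ∃ w, w.length = n ∧ P w := by
  by_contra hc
  push Not at hc
  have : (Ex k n fun w => ind (P w)) = Ex k n fun _ => (0 : ℝ) :=
    Ex_congr fun w hw => ind_of_not (hc w hw)
  rw [this, Ex_zero_fun] at h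
  exact lt_irrefl _ h

/-- some value is at least the mean -/
lemma exists_ge_Ex (hk : 0 < k) (n : ℕ) (f : List (Fin k) → ℝ) :
    ∃ w, w.length = n ∧ Ex k n f ≤ f w := by
  by_contra hc
  push Not at hc
  induction n generalizing f with
  | zero => exact absurd (hc [] rfl) (by simp)
  | succ n ih =>
    have h1 : ∀ c : Fin k, ∃ w : List (Fin k), w.length = n ∧ Ex k n (fun w => f (c :: w)) ≤ f (c :: w) := by
      intro c
      by_contra hc'
      push Not at hc'
      exact ih _ hc'
    rw [Ex_succ] at hc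
    have : Nonempty (Fin k) := ⟨⟨0, hk⟩⟩
    obtain ⟨c, -, hcm⟩ := Finset.exists_max_image (Finset.univ : Finset (Fin k))
      (fun c => Ex k n (fun w => f (c :: w))) Finset.univ_nonempty
    obtain ⟨w, hw, hw'⟩ := h1 c
    have h2 := hc (c :: w) (by simp [hw])
    have hk' : (0 : ℝ) < k := by exact_mod_cast hk
    have h3 : (∑ c : Fin k, Ex k n (fun w => f (c :: w))) / k ≤ Ex k n (fun w => f (c :: w)) := by
      rw [div_le_iff₀ hk']
      have := Finset.sum_le_sum (s := (Finset.univ : Finset (Fin k)))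
        (f := fun c => Ex k n (fun w => f (c :: w))) (g := fun _ => Ex k n (fun w => f (c :: w)))
        (fun c' _ => hcm c' (Finset.mem_univ _))
      simp only [Finset.sum_const, Finset.card_univ, Fintype.card_fin, nsmul_eq_mul] at this
      linarith
    linarith

lemma exists_le_Ex (hk : 0 < k) (n : ℕ) (f : List (Fin k) → ℝ) :
    ∃ w, w.length = n ∧ f w ≤ Ex k n f := by
  obtain ⟨w, hw, h⟩ := exists_ge_Ex hk n fun w => - f w
  rw [Ex_neg] at h
  exact ⟨w, hw, by linarith⟩

/-- **Markov** -/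
lemma Ex_markov {n : ℕ} {f : List (Fin k) → ℝ} {t : ℝ} (ht : 0 < t)
    (hf : ∀ w, w.length = n → 0 ≤ f w) : (Ex k n fun w => ind (t ≤ f w)) ≤ Ex k n f / t := by
  rw [← Ex_div]
  exact Ex_mono fun w hw => ind_le_div ht (hf w hw)

/-- **Chebyshev** -/
lemma Ex_chebyshev (n : ℕ) (f : List (Fin k) → ℝ) (m : ℝ) {t : ℝ} (ht : 0 < t) :
    (Ex k n fun w => ind (t ≤ |f w - m|)) ≤ (Ex k n fun w => (f w - m) ^ 2) / t ^ 2 := by
  rw [← Ex_div]
  exact Ex_mono fun w _ => ind_le_sq_div ht

/-- **Chernoff** -/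
lemma Ex_chernoff (n : ℕ) (f : List (Fin k) → ℝ) {z : ℝ} (hz : 0 ≤ z) (t : ℝ) :
    (Ex k n fun w => ind (t ≤ f w)) ≤ Real.exp (-(z * t)) * Ex k n fun w => Real.exp (z * f w) := by
  rw [← Ex_const_mul]
  exact Ex_mono fun w _ => ind_le_exp hz

/-- **Cauchy-Schwarz** -/
lemma Ex_cauchy_schwarz (n : ℕ) (f g : List (Fin k) → ℝ) :
    (Ex k n fun w => f w * g w) ^ 2 ≤ (Ex k n fun w => f w ^ 2) * Ex k n fun w => g w ^ 2 := by
  -- discriminant
  set a := Ex k n fun w => f w ^ 2 with ha
  set b := Ex k n fun w => f w * g w with hb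
  set c := Ex k n fun w => g w ^ 2 with hc
  have h : ∀ t : ℝ, 0 ≤ a * (t * t) + (2 * b) * t + c := by
    intro t
    have h1 : a * (t * t) + (2 * b) * t + c = Ex k n fun w => (t * f w + g w) ^ 2 := by
      have h2 : (fun w : List (Fin k) => (t * f w + g w) ^ 2) =
          fun w => (t * t * f w ^ 2 + 2 * t * (f w * g w)) + g w ^ 2 := by
        funext w; ring
      rw [h2, Ex_add, Ex_add, Ex_const_mul, Ex_const_mul, ← ha, ← hb, ← hc]
      ring
    rw [h1]
    exact Ex_nonneg fun w _ => sq_nonneg _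
  have := discrim_le_zero h
  unfold discrim at this
  nlinarith

/-- square of the mean -/
lemma Ex_sq_le (hk : 0 < k) (n : ℕ) (f : List (Fin k) → ℝ) :
    (Ex k n f) ^ 2 ≤ Ex k n fun w => f w ^ 2 := by
  have := Ex_cauchy_schwarz n f (fun _ => (1 : ℝ))
  simp only [mul_one, one_pow] at this
  rwa [Ex_const hk, mul_one] at this

/-- the first letters and the last letters -/
lemma Ex_take (hk : 0 < k) {m n : ℕ} (h : m ≤ n) (f : List (Fin k) → ℝ) :
    Ex k n (fun w => f (w.take m)) = Ex k m f := by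
  obtain ⟨c, rfl⟩ := Nat.exists_eq_add_of_le h
  rw [Ex_append]
  refine Ex_congr fun u hu => ?_
  rw [← Ex_const hk c (f u)]
  refine Ex_congr fun v _ => ?_
  rw [List.take_left' hu]

lemma Ex_drop (hk : 0 < k) {m n : ℕ} (h : m ≤ n) (f : List (Fin k) → ℝ) :
    Ex k n (fun w => f (w.drop m)) = Ex k (n - m) f := by
  obtain ⟨c, rfl⟩ := Nat.exists_eq_add_of_le h
  rw [Ex_append, Nat.add_sub_cancel_left]
  have : Ex k m (fun u => Ex k c fun v => f ((u ++ v).drop m)) = Ex k m fun _ => Ex k c f := by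
    refine Ex_congr fun u hu => Ex_congr fun v _ => ?_
    rw [List.drop_left' hu]
  rw [this, Ex_const hk]

/-- prefix and suffix -/
lemma Ex_take_drop {m n : ℕ} (h : m ≤ n) (f : List (Fin k) → List (Fin k) → ℝ) :
    Ex k n (fun w => f (w.take m) (w.drop m)) = Ex k m fun u => Ex k (n - m) fun v => f u v := by
  obtain ⟨c, rfl⟩ := Nat.exists_eq_add_of_le h
  rw [Ex_append, Nat.add_sub_cancel_left]
  refine Ex_congr fun u hu => Ex_congr fun v _ => ?_
  rw [List.take_left' hu, List.drop_left' hu]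

/-- probability of a given word -/
lemma Ex_ind_eq (w : List (Fin k)) (f : List (Fin k) → ℝ) :
    (Ex k w.length fun v => ind (v = w) * f v) = ((k : ℝ)⁻¹) ^ w.length * f w := by
  rw [← Ex_indicator_eq]
  refine Ex_congr fun v _ => ?_
  by_cases h : v = w <;> simp [ind, h]

lemma Ex_ind_eq' (w : List (Fin k)) :
    (Ex k w.length fun v => ind (v = w)) = ((k : ℝ)⁻¹) ^ w.length := by
  simpa using Ex_ind_eq w fun _ => 1

end Ex

/-! ### `Exc` -/

section Exc

variable {k s : ℕ} {g : List (Fin k) → ℝ}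

@[simp] lemma Exc_zero (k s : ℕ) (g : List (Fin k) → ℝ) (f : List (List (Fin k)) → ℝ) :
    Exc k s g 0 f = f [] := rfl

lemma Exc_succ (k s : ℕ) (g : List (Fin k) → ℝ) (T : ℕ) (f : List (List (Fin k)) → ℝ) :
    Exc k s g (T + 1) f = Ex k s fun w => g w * Exc k s g T fun l => f (w :: l) := rfl

/-- a list of `T` cells of length `s` -/
def IsCells {α : Type*} (s T : ℕ) (l : List (List α)) : Prop := l.length = T ∧ ∀ w ∈ l, w.length = s

lemma isCells_nil {α : Type*} (s : ℕ) : IsCells s 0 ([] : List (List α)) := ⟨rfl, by simp⟩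

lemma isCells_cons {α : Type*} {s T : ℕ} {w : List α} {l : List (List α)} :
    IsCells s (T + 1) (w :: l) ↔ w.length = s ∧ IsCells s T l := by
  unfold IsCells
  constructor
  · rintro ⟨h1, h2⟩
    exact ⟨h2 w (by simp), by simpa using h1, fun v hv => h2 v (by simp [hv])⟩
  · rintro ⟨h1, h2, h3⟩
    refine ⟨by simp [h2], ?_⟩
    intro v hv
    rcases List.mem_cons.mp hv with rfl | hv
    · exact h1
    · exact h3 v hv

lemma IsCells.append {α : Type*} {s T T' : ℕ} {l l' : List (List α)} (h : IsCells s T l)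
    (h' : IsCells s T' l') : IsCells s (T + T') (l ++ l') := by
  refine ⟨by simp [h.1, h'.1], ?_⟩
  intro w hw
  rcases List.mem_append.mp hw with hw | hw
  · exact h.2 w hw
  · exact h'.2 w hw

lemma IsCells.flatten_length {α : Type*} {s T : ℕ} {l : List (List α)} (h : IsCells s T l) :
    l.flatten.length = T * s := by
  induction l generalizing T with
  | nil =>
    have : T = 0 := by simpa using h.1.symm
    simp [this]
  | cons w l ih =>
    obtain ⟨T, rfl⟩ : ∃ T', T = T' + 1 := ⟨l.length, by simpa using h.1.symm⟩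
    rw [isCells_cons] at h
    rw [List.flatten_cons, List.length_append, h.1, ih h.2]
    ring

lemma IsCells.reverse {α : Type*} {s T : ℕ} {l : List (List α)} (h : IsCells s T l) :
    IsCells s T l.reverse := ⟨by simp [h.1], fun w hw => h.2 w (by simpa using hw)⟩

lemma Exc_congr {T : ℕ} {f f' : List (List (Fin k)) → ℝ} (h : ∀ l, IsCells s T l → f l = f' l) :
    Exc k s g T f = Exc k s g T f' := by
  induction T generalizing f f' with
  | zero => exact h [] (isCells_nil s)
  | succ T ih =>
    rw [Exc_succ, Exc_succ]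
    refine Ex_congr fun w hw => ?_
    rw [ih fun l hl => h (w :: l) (isCells_cons.mpr ⟨hw, hl⟩)]

/-- the same mean for densities which agree on words of length `s` -/
lemma Exc_congr_dens {g g' : List (Fin k) → ℝ} (h : ∀ w, w.length = s → g w = g' w) (T : ℕ)
    (f : List (List (Fin k)) → ℝ) : Exc k s g T f = Exc k s g' T f := by
  induction T generalizing f with
  | zero => rfl
  | succ T ih =>
    rw [Exc_succ, Exc_succ]
    refine Ex_congr fun w hw => ?_
    rw [h w hw, ih]

lemma Exc_mono (hg : ∀ w, w.length = s → 0 ≤ g w) {T : ℕ} {f f' : List (List (Fin k)) → ℝ}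
    (h : ∀ l, IsCells s T l → f l ≤ f' l) : Exc k s g T f ≤ Exc k s g T f' := by
  induction T generalizing f f' with
  | zero => exact h [] (isCells_nil s)
  | succ T ih =>
    rw [Exc_succ, Exc_succ]
    refine Ex_mono fun w hw => ?_
    exact mul_le_mul_of_nonneg_left (ih fun l hl => h (w :: l) (isCells_cons.mpr ⟨hw, hl⟩)) (hg w hw)

lemma Exc_add (T : ℕ) (f f' : List (List (Fin k)) → ℝ) :
    Exc k s g T (fun l => f l + f' l) = Exc k s g T f + Exc k s g T f' := by
  induction T generalizing f f' with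
  | zero => rfl
  | succ T ih =>
    rw [Exc_succ, Exc_succ, Exc_succ, ← Ex_add]
    refine Ex_congr fun w _ => ?_
    rw [ih, mul_add]

lemma Exc_const_mul (T : ℕ) (c : ℝ) (f : List (List (Fin k)) → ℝ) :
    Exc k s g T (fun l => c * f l) = c * Exc k s g T f := by
  induction T generalizing f with
  | zero => rfl
  | succ T ih =>
    rw [Exc_succ, Exc_succ, ← Ex_const_mul]
    refine Ex_congr fun w _ => ?_
    rw [ih]; ring

lemma Exc_mul_const (T : ℕ) (c : ℝ) (f : List (List (Fin k)) → ℝ) :
    Exc k s g T (fun l => f l * c) = Exc k s g T f * c := by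
  rw [mul_comm, ← Exc_const_mul]
  exact Exc_congr fun l _ => mul_comm _ _

lemma Exc_div (T : ℕ) (c : ℝ) (f : List (List (Fin k)) → ℝ) :
    Exc k s g T (fun l => f l / c) = Exc k s g T f / c := by
  simp only [div_eq_mul_inv]
  exact Exc_mul_const _ _ _

lemma Exc_zero_fun (T : ℕ) : Exc k s g T (fun _ => (0 : ℝ)) = 0 := by
  simpa using Exc_const_mul (k := k) (s := s) (g := g) T 0 (fun _ => 0)

lemma Exc_neg (T : ℕ) (f : List (List (Fin k)) → ℝ) :
    Exc k s g T (fun l => - f l) = - Exc k s g T f := by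
  simpa using Exc_const_mul (k := k) (s := s) (g := g) T (-1) f

lemma Exc_sub (T : ℕ) (f f' : List (List (Fin k)) → ℝ) :
    Exc k s g T (fun l => f l - f' l) = Exc k s g T f - Exc k s g T f' := by
  simp only [sub_eq_add_neg]
  rw [Exc_add, Exc_neg]

lemma Exc_finset_sum {ι : Type*} (S : Finset ι) (T : ℕ) (f : ι → List (List (Fin k)) → ℝ) :
    Exc k s g T (fun l => ∑ i ∈ S, f i l) = ∑ i ∈ S, Exc k s g T (f i) := by
  classical
  induction S using Finset.induction_on with
  | empty => simpa using Exc_zero_fun (k := k) (s := s) (g := g) T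
  | insert i S hi ih =>
    rw [Finset.sum_insert hi, ← ih, ← Exc_add]
    exact Exc_congr fun l _ => Finset.sum_insert hi

/-- total mass -/
lemma Exc_const' (T : ℕ) (c : ℝ) : Exc k s g T (fun _ => c) = (Ex k s g) ^ T * c := by
  induction T with
  | zero => simp
  | succ T ih =>
    rw [Exc_succ]
    simp only [ih]
    rw [Ex_mul_const, pow_succ]; ring

lemma Exc_const (hg1 : Ex k s g = 1) (T : ℕ) (c : ℝ) : Exc k s g T (fun _ => c) = c := by
  rw [Exc_const', hg1, one_pow, one_mul]

lemma Exc_nonneg (hg : ∀ w, w.length = s → 0 ≤ g w) {T : ℕ} {f : List (List (Fin k)) → ℝ}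
    (h : ∀ l, IsCells s T l → 0 ≤ f l) : 0 ≤ Exc k s g T f := by
  have := Exc_mono (k := k) (s := s) (g := g) hg (T := T) (f := fun _ => 0) (f' := f) h
  rwa [Exc_zero_fun] at this

lemma Exc_le_const (hg : ∀ w, w.length = s → 0 ≤ g w) (hg1 : Ex k s g = 1) {T : ℕ}
    {f : List (List (Fin k)) → ℝ} {c : ℝ} (h : ∀ l, IsCells s T l → f l ≤ c) :
    Exc k s g T f ≤ c := by
  have := Exc_mono (k := k) (s := s) (g := g) hg (T := T) (f := f) (f' := fun _ => c) h
  rwa [Exc_const hg1] at this

lemma const_le_Exc (hg : ∀ w, w.length = s → 0 ≤ g w) (hg1 : Ex k s g = 1) {T : ℕ}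
    {f : List (List (Fin k)) → ℝ} {c : ℝ} (h : ∀ l, IsCells s T l → c ≤ f l) :
    c ≤ Exc k s g T f := by
  have := Exc_mono (k := k) (s := s) (g := g) hg (T := T) (f := fun _ => c) (f' := f) h
  rwa [Exc_const hg1] at this

lemma Exc_abs_le (hg : ∀ w, w.length = s → 0 ≤ g w) (T : ℕ) (f : List (List (Fin k)) → ℝ) :
    |Exc k s g T f| ≤ Exc k s g T fun l => |f l| := by
  rw [abs_le]
  constructor
  · rw [← Exc_neg]
    exact Exc_mono hg fun l _ => neg_abs_le _
  · exact Exc_mono hg fun l _ => le_abs_self _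

/-- independence of the first `T` and the last `T'` cells -/
lemma Exc_append (T T' : ℕ) (f : List (List (Fin k)) → ℝ) :
    Exc k s g (T + T') f = Exc k s g T fun l => Exc k s g T' fun l' => f (l ++ l') := by
  induction T generalizing f with
  | zero => simp
  | succ T ih =>
    rw [show T + 1 + T' = (T + T') + 1 by ring, Exc_succ, Exc_succ]
    refine Ex_congr fun w _ => ?_
    rw [ih]
    rfl

@[simp] lemma Exc_one (k s : ℕ) (g : List (Fin k) → ℝ) (f : List (List (Fin k)) → ℝ) :
    Exc k s g 1 f = Ex k s fun w => g w * f [w] := rfl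

/-- the last cell -/
lemma Exc_succ' (T : ℕ) (f : List (List (Fin k)) → ℝ) :
    Exc k s g (T + 1) f = Exc k s g T fun l => Ex k s fun w => g w * f (l ++ [w]) := by
  rw [Exc_append]
  simp

/-- the cell number `T` (counted from `0`) of `T + 1 + T'` cells -/
lemma Exc_cell (T T' : ℕ) (f : List (List (Fin k)) → ℝ) :
    Exc k s g (T + 1 + T') f = Exc k s g T fun l => Ex k s fun w => g w *
      Exc k s g T' fun l' => f (l ++ w :: l') := by
  rw [Exc_append, Exc_succ']
  refine Exc_congr fun l _ => Ex_congr fun w _ => ?_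
  congr 1
  refine Exc_congr fun l' _ => ?_
  simp

/-- Fubini, words and cells -/
lemma Ex_Exc_comm (n T : ℕ) (f : List (Fin k) → List (List (Fin k)) → ℝ) :
    Ex k n (fun y => Exc k s g T fun l => f y l) = Exc k s g T fun l => Ex k n fun y => f y l := by
  induction T generalizing f with
  | zero => rfl
  | succ T ih =>
    simp only [Exc_succ]
    rw [Ex_comm]
    refine Ex_congr fun w _ => ?_
    rw [Ex_const_mul, ih]

/-- Fubini, cells and cells -/
lemma Exc_comm {s' : ℕ} {g' : List (Fin k) → ℝ} (T T' : ℕ)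
    (f : List (List (Fin k)) → List (List (Fin k)) → ℝ) :
    Exc k s g T (fun l => Exc k s' g' T' fun l' => f l l') =
      Exc k s' g' T' fun l' => Exc k s g T fun l => f l l' := by
  induction T generalizing f with
  | zero => rfl
  | succ T ih =>
    simp only [Exc_succ]
    rw [← Ex_Exc_comm]
    refine Ex_congr fun w _ => ?_
    rw [Exc_const_mul, ih]

/-- Fubini with a finite sum -/
lemma Exc_sum_comm {ι : Type*} (S : Finset ι) (T : ℕ) (f : ι → List (List (Fin k)) → ℝ) :
    ∑ i ∈ S, Exc k s g T (f i) = Exc k s g T fun l => ∑ i ∈ S, f i l := (Exc_finset_sum S T f).symm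

lemma Exc_prod {s' : ℕ} {g' : List (Fin k) → ℝ} (T T' : ℕ) (f f' : List (List (Fin k)) → ℝ) :
    Exc k s g T (fun l => Exc k s' g' T' fun l' => f l * f' l') =
      Exc k s g T f * Exc k s' g' T' f' := by
  simp only [Exc_const_mul, Exc_mul_const]

/-- product of functions of the cells -/
lemma Exc_map_prod (T : ℕ) (h : List (Fin k) → ℝ) :
    Exc k s g T (fun l => (l.map h).prod) = (Ex k s fun w => g w * h w) ^ T := by
  induction T with
  | zero => simp
  | succ T ih =>
    rw [Exc_succ]
    simp only [List.map_cons, List.prod_cons, Exc_const_mul, ih]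
    rw [pow_succ']
    rw [← Ex_mul_const]
    refine Ex_congr fun w _ => ?_
    ring

/-- sum of functions of the cells -/
lemma Exc_map_sum (hg1 : Ex k s g = 1) (T : ℕ) (h : List (Fin k) → ℝ) :
    Exc k s g T (fun l => (l.map h).sum) = T * Ex k s fun w => g w * h w := by
  induction T with
  | zero => simp
  | succ T ih =>
    rw [Exc_succ]
    simp only [List.map_cons, List.sum_cons, Exc_add, Exc_const hg1, ih]
    have h1 : (fun w : List (Fin k) => g w * (h w + T * Ex k s fun w => g w * h w)) =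
        fun w => g w * h w + g w * (T * Ex k s fun w => g w * h w) := by
      funext w; ring
    rw [h1, Ex_add, Ex_mul_const, hg1]
    push_cast
    ring

/-- change of density -/
lemma Exc_dens_mul (g h : List (Fin k) → ℝ) (T : ℕ) (f : List (List (Fin k)) → ℝ) :
    Exc k s (fun w => g w * h w) T f = Exc k s g T fun l => (l.map h).prod * f l := by
  induction T generalizing f with
  | zero => simp
  | succ T ih =>
    rw [Exc_succ, Exc_succ]
    refine Ex_congr fun w _ => ?_
    rw [ih, mul_assoc]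
    congr 1
    rw [← Exc_const_mul]
    refine Exc_congr fun l _ => ?_
    simp only [List.map_cons, List.prod_cons]
    ring

/-- reversal of the order of the cells -/
lemma Exc_reverse (T : ℕ) (f : List (List (Fin k)) → ℝ) :
    Exc k s g T (fun l => f l.reverse) = Exc k s g T f := by
  induction T generalizing f with
  | zero => rfl
  | succ T ih =>
    rw [Exc_succ', Exc_succ, ← Ex_Exc_comm]
    refine Ex_congr fun w _ => ?_
    rw [Exc_const_mul, ← ih]
    simp

/-- Cauchy-Schwarz -/
lemma Exc_cauchy_schwarz (hg : ∀ w, w.length = s → 0 ≤ g w) (T : ℕ)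
    (f f' : List (List (Fin k)) → ℝ) :
    (Exc k s g T fun l => f l * f' l) ^ 2 ≤
      (Exc k s g T fun l => f l ^ 2) * Exc k s g T fun l => f' l ^ 2 := by
  set a := Exc k s g T fun l => f l ^ 2 with ha
  set b := Exc k s g T fun l => f l * f' l with hb
  set c := Exc k s g T fun l => f' l ^ 2 with hc
  have h : ∀ t : ℝ, 0 ≤ a * (t * t) + (2 * b) * t + c := by
    intro t
    have h1 : a * (t * t) + (2 * b) * t + c = Exc k s g T fun l => (t * f l + f' l) ^ 2 := by
      have h2 : (fun l : List (List (Fin k)) => (t * f l + f' l) ^ 2) =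
          fun l => (t * t * f l ^ 2 + 2 * t * (f l * f' l)) + f' l ^ 2 := by
        funext w; ring
      rw [h2, Exc_add, Exc_add, Exc_const_mul, Exc_const_mul, ← ha, ← hb, ← hc]
      ring
    rw [h1]
    exact Exc_nonneg hg fun w _ => sq_nonneg _
  have := discrim_le_zero h
  unfold discrim at this
  nlinarith

lemma Exc_sq_le (hg : ∀ w, w.length = s → 0 ≤ g w) (hg1 : Ex k s g = 1) (T : ℕ)
    (f : List (List (Fin k)) → ℝ) : (Exc k s g T f) ^ 2 ≤ Exc k s g T fun l => f l ^ 2 := by
  have := Exc_cauchy_schwarz (k := k) (s := s) (g := g) hg T f (fun _ => (1 : ℝ))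
  simp only [mul_one, one_pow] at this
  rwa [Exc_const hg1, mul_one] at this

/-- Jensen for the exponential -/
lemma Exc_exp_jensen (hg : ∀ w, w.length = s → 0 ≤ g w) (hg1 : Ex k s g = 1) (T : ℕ)
    (f : List (List (Fin k)) → ℝ) :
    Real.exp (Exc k s g T f) ≤ Exc k s g T fun l => Real.exp (f l) := by
  set m := Exc k s g T f with hm
  have h : ∀ l : List (List (Fin k)), IsCells s T l →
      Real.exp m * (1 + (f l - m)) ≤ Real.exp (f l) := by
    intro l _
    have h1 : f l = m + (f l - m) := by ring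
    calc Real.exp m * (1 + (f l - m)) ≤ Real.exp m * Real.exp (f l - m) := by
          apply mul_le_mul_of_nonneg_left _ (Real.exp_pos _).le
          linarith [Real.add_one_le_exp (f l - m)]
      _ = Real.exp (f l) := by rw [← Real.exp_add]; congr 1; ring
  have h2 := Exc_mono hg h
  rw [Exc_const_mul] at h2
  have h3 : Exc k s g T (fun w => 1 + (f w - m)) = 1 := by
    rw [Exc_add, Exc_const hg1, Exc_sub, Exc_const hg1, ← hm]; ring
  rw [h3, mul_one] at h2
  exact h2

/-- **Markov** -/
lemma Exc_markov (hg : ∀ w, w.length = s → 0 ≤ g w) {T : ℕ} {f : List (List (Fin k)) → ℝ} {t : ℝ}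
    (ht : 0 < t) (hf : ∀ l, IsCells s T l → 0 ≤ f l) :
    (Exc k s g T fun l => ind (t ≤ f l)) ≤ Exc k s g T f / t := by
  rw [← Exc_div]
  exact Exc_mono hg fun l hl => ind_le_div ht (hf l hl)

/-- **Chebyshev** -/
lemma Exc_chebyshev (hg : ∀ w, w.length = s → 0 ≤ g w) (T : ℕ) (f : List (List (Fin k)) → ℝ)
    (m : ℝ) {t : ℝ} (ht : 0 < t) :
    (Exc k s g T fun l => ind (t ≤ |f l - m|)) ≤ (Exc k s g T fun l => (f l - m) ^ 2) / t ^ 2 := by
  rw [← Exc_div]
  exact Exc_mono hg fun l _ => ind_le_sq_div ht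

/-- **Chernoff** -/
lemma Exc_chernoff (hg : ∀ w, w.length = s → 0 ≤ g w) (T : ℕ) (f : List (List (Fin k)) → ℝ)
    {z : ℝ} (hz : 0 ≤ z) (t : ℝ) :
    (Exc k s g T fun l => ind (t ≤ f l)) ≤
      Real.exp (-(z * t)) * Exc k s g T fun l => Real.exp (z * f l) := by
  rw [← Exc_const_mul]
  exact Exc_mono hg fun l _ => ind_le_exp hz

lemma Exc_ind_le_one (hg : ∀ w, w.length = s → 0 ≤ g w) (hg1 : Ex k s g = 1) (T : ℕ)
    (P : List (List (Fin k)) → Prop) : (Exc k s g T fun l => ind (P l)) ≤ 1 :=
  Exc_le_const hg hg1 fun _ _ => ind_le_one _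

lemma Exc_ind_not (hg1 : Ex k s g = 1) (T : ℕ) (P : List (List (Fin k)) → Prop) :
    (Exc k s g T fun l => ind (¬ P l)) = 1 - Exc k s g T fun l => ind (P l) := by
  simp only [ind_not]
  rw [Exc_sub, Exc_const hg1]

lemma Exc_ind_mono (hg : ∀ w, w.length = s → 0 ≤ g w) {T : ℕ} {P Q : List (List (Fin k)) → Prop}
    (h : ∀ l, IsCells s T l → P l → Q l) :
    (Exc k s g T fun l => ind (P l)) ≤ Exc k s g T fun l => ind (Q l) :=
  Exc_mono hg fun l hl => ind_mono (h l hl)

/-- comparison of densities -/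
lemma Exc_dens_mono {g g' : List (Fin k) → ℝ} (hg : ∀ w, w.length = s → 0 ≤ g w)
    (h : ∀ w, w.length = s → g w ≤ g' w) {T : ℕ} {f : List (List (Fin k)) → ℝ}
    (hf : ∀ l, IsCells s T l → 0 ≤ f l) : Exc k s g T f ≤ Exc k s g' T f := by
  induction T generalizing f with
  | zero => exact le_rfl
  | succ T ih =>
    rw [Exc_succ, Exc_succ]
    refine Ex_mono fun w hw => ?_
    have h1 := ih (f := fun l => f (w :: l)) fun l hl => hf (w :: l) (isCells_cons.mpr ⟨hw, hl⟩)
    have h2 : 0 ≤ Exc k s g' T fun l => f (w :: l) :=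
      Exc_nonneg (fun v hv => (hg v hv).trans (h v hv)) fun l hl =>
        hf (w :: l) (isCells_cons.mpr ⟨hw, hl⟩)
    exact mul_le_mul (h w hw) h1
      (Exc_nonneg hg fun l hl => hf (w :: l) (isCells_cons.mpr ⟨hw, hl⟩))
      ((hg w hw).trans (h w hw))

lemma Exc_dens_smul (c : ℝ) (g : List (Fin k) → ℝ) (T : ℕ) (f : List (List (Fin k)) → ℝ) :
    Exc k s (fun w => c * g w) T f = c ^ T * Exc k s g T f := by
  induction T generalizing f with
  | zero => simp
  | succ T ih =>
    rw [Exc_succ, Exc_succ, ← Ex_const_mul]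
    refine Ex_congr fun w _ => ?_
    rw [ih, pow_succ]; ring

end Exc

/-! ### mixtures of cell laws -/

section mix

variable {k s : ℕ}

/-- mean over cells with labels: the label is `true` with probability `θ`, the cell has density
`g₁` if the label is `true` and `g₀` if it is `false` -/
def Exm (k s : ℕ) (θ : ℝ) (g₀ g₁ : List (Fin k) → ℝ) :
    ℕ → (List (Bool × List (Fin k)) → ℝ) → ℝ
  | 0, f => f []
  | T + 1, f => (1 - θ) * (Ex k s fun w => g₀ w * Exm k s θ g₀ g₁ T fun l => f ((false, w) :: l)) +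
      θ * (Ex k s fun w => g₁ w * Exm k s θ g₀ g₁ T fun l => f ((true, w) :: l))

@[simp] lemma Exm_zero (θ : ℝ) (g₀ g₁ : List (Fin k) → ℝ) (f : List (Bool × List (Fin k)) → ℝ) :
    Exm k s θ g₀ g₁ 0 f = f [] := rfl

lemma Exm_succ (θ : ℝ) (g₀ g₁ : List (Fin k) → ℝ) (T : ℕ) (f : List (Bool × List (Fin k)) → ℝ) :
    Exm k s θ g₀ g₁ (T + 1) f =
      (1 - θ) * (Ex k s fun w => g₀ w * Exm k s θ g₀ g₁ T fun l => f ((false, w) :: l)) +
      θ * (Ex k s fun w => g₁ w * Exm k s θ g₀ g₁ T fun l => f ((true, w) :: l)) := rfl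

/-- forgetting the labels gives the mixture -/
lemma Exm_map_snd (θ : ℝ) (g₀ g₁ : List (Fin k) → ℝ) (T : ℕ) (f : List (List (Fin k)) → ℝ) :
    (Exm k s θ g₀ g₁ T fun l => f (l.map Prod.snd)) =
      Exc k s (fun w => (1 - θ) * g₀ w + θ * g₁ w) T f := by
  induction T generalizing f with
  | zero => rfl
  | succ T ih =>
    rw [Exm_succ, Exc_succ]
    simp only [List.map_cons]
    have h1 : ∀ w : List (Fin k), (Exm k s θ g₀ g₁ T fun l => f (w :: l.map Prod.snd)) =
        Exc k s (fun w => (1 - θ) * g₀ w + θ * g₁ w) T fun l => f (w :: l) :=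
      fun w => ih fun l => f (w :: l)
    simp only [h1]
    rw [← Ex_const_mul, ← Ex_const_mul, ← Ex_add]
    refine Ex_congr fun w _ => ?_
    ring

/-- the labels are independent of everything if both densities are the same -/
lemma Exm_mono {θ : ℝ} (hθ : 0 ≤ θ) (hθ1 : θ ≤ 1) {g₀ g₁ : List (Fin k) → ℝ}
    (h₀ : ∀ w, w.length = s → 0 ≤ g₀ w) (h₁ : ∀ w, w.length = s → 0 ≤ g₁ w) {T : ℕ}
    {f f' : List (Bool × List (Fin k)) → ℝ}
    (h : ∀ l, l.length = T → (∀ p ∈ l, p.2.length = s) → f l ≤ f' l) :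
    Exm k s θ g₀ g₁ T f ≤ Exm k s θ g₀ g₁ T f' := by
  induction T generalizing f f' with
  | zero => exact h [] rfl (by simp)
  | succ T ih =>
    rw [Exm_succ, Exm_succ]
    have h2 : ∀ (b : Bool) (w : List (Fin k)), w.length = s →
        (Exm k s θ g₀ g₁ T fun l => f ((b, w) :: l)) ≤
          Exm k s θ g₀ g₁ T fun l => f' ((b, w) :: l) := by
      intro b w hw
      refine ih fun l hl hl' => h _ (by simp [hl]) ?_
      intro p hp
      rcases List.mem_cons.mp hp with rfl | hp
      · exact hw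
      · exact hl' p hp
    refine add_le_add (mul_le_mul_of_nonneg_left (Ex_mono fun w hw => ?_) (by linarith))
      (mul_le_mul_of_nonneg_left (Ex_mono fun w hw => ?_) hθ)
    · exact mul_le_mul_of_nonneg_left (h2 _ _ hw) (h₀ w hw)
    · exact mul_le_mul_of_nonneg_left (h2 _ _ hw) (h₁ w hw)

lemma Exm_congr {θ : ℝ} {g₀ g₁ : List (Fin k) → ℝ} {T : ℕ}
    {f f' : List (Bool × List (Fin k)) → ℝ}
    (h : ∀ l, l.length = T → (∀ p ∈ l, p.2.length = s) → f l = f' l) :
    Exm k s θ g₀ g₁ T f = Exm k s θ g₀ g₁ T f' := by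
  induction T generalizing f f' with
  | zero => exact h [] rfl (by simp)
  | succ T ih =>
    rw [Exm_succ, Exm_succ]
    have h2 : ∀ (b : Bool) (w : List (Fin k)), w.length = s →
        (Exm k s θ g₀ g₁ T fun l => f ((b, w) :: l)) =
          Exm k s θ g₀ g₁ T fun l => f' ((b, w) :: l) := by
      intro b w hw
      refine ih fun l hl hl' => h _ (by simp [hl]) ?_
      intro p hp
      rcases List.mem_cons.mp hp with rfl | hp
      · exact hw
      · exact hl' p hp
    congr 1
    · congr 1
      exact Ex_congr fun w hw => by rw [h2 _ _ hw]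
    · congr 1
      exact Ex_congr fun w hw => by rw [h2 _ _ hw]

lemma Exm_add (θ : ℝ) (g₀ g₁ : List (Fin k) → ℝ) (T : ℕ)
    (f f' : List (Bool × List (Fin k)) → ℝ) :
    Exm k s θ g₀ g₁ T (fun l => f l + f' l) = Exm k s θ g₀ g₁ T f + Exm k s θ g₀ g₁ T f' := by
  induction T generalizing f f' with
  | zero => rfl
  | succ T ih =>
    simp only [Exm_succ, ih, mul_add, Ex_add]
    ring

lemma Exm_const_mul (θ : ℝ) (g₀ g₁ : List (Fin k) → ℝ) (T : ℕ) (c : ℝ)
    (f : List (Bool × List (Fin k)) → ℝ) :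
    Exm k s θ g₀ g₁ T (fun l => c * f l) = c * Exm k s θ g₀ g₁ T f := by
  induction T generalizing f with
  | zero => rfl
  | succ T ih =>
    simp only [Exm_succ, ih]
    have h1 : ∀ (g : List (Fin k) → ℝ) (F : List (Fin k) → ℝ),
        (Ex k s fun w => g w * (c * F w)) = c * Ex k s fun w => g w * F w := by
      intro g F
      rw [← Ex_const_mul]
      exact Ex_congr fun w _ => by ring
    rw [h1, h1]
    ring

lemma Exm_const {θ : ℝ} {g₀ g₁ : List (Fin k) → ℝ} (h₀ : Ex k s g₀ = 1) (h₁ : Ex k s g₁ = 1)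
    (T : ℕ) (c : ℝ) : Exm k s θ g₀ g₁ T (fun _ => c) = c := by
  induction T with
  | zero => rfl
  | succ T ih =>
    rw [Exm_succ]
    simp only [ih, Ex_mul_const, h₀, h₁]
    ring

lemma Exm_append (θ : ℝ) (g₀ g₁ : List (Fin k) → ℝ) (T T' : ℕ)
    (f : List (Bool × List (Fin k)) → ℝ) :
    Exm k s θ g₀ g₁ (T + T') f = Exm k s θ g₀ g₁ T fun l => Exm k s θ g₀ g₁ T' fun l' =>
      f (l ++ l') := by
  induction T generalizing f with
  | zero => simp
  | succ T ih =>
    rw [show T + 1 + T' = (T + T') + 1 by ring, Exm_succ, Exm_succ]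
    simp only [ih]
    rfl

/-- Fubini -/
lemma Ex_Exm_comm (n : ℕ) (θ : ℝ) (g₀ g₁ : List (Fin k) → ℝ) (T : ℕ)
    (f : List (Fin k) → List (Bool × List (Fin k)) → ℝ) :
    Ex k n (fun y => Exm k s θ g₀ g₁ T fun l => f y l) =
      Exm k s θ g₀ g₁ T fun l => Ex k n fun y => f y l := by
  induction T generalizing f with
  | zero => rfl
  | succ T ih =>
    simp only [Exm_succ]
    rw [Ex_add, Ex_const_mul, Ex_const_mul, Ex_comm, Ex_comm n s]
    congr 2
    · refine Ex_congr fun w _ => ?_
      rw [Ex_const_mul, ih]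
    · refine Ex_congr fun w _ => ?_
      rw [Ex_const_mul, ih]

end mix

/-! ### uniform cells -/

section Exs

variable {k : ℕ}

lemma one_dens (hk : 0 < k) (s : ℕ) : Ex k s (fun _ => (1 : ℝ)) = 1 := Ex_const hk s 1

@[simp] lemma Exs_zero (k s : ℕ) (f : List (List (Fin k)) → ℝ) : Exs k s 0 f = f [] := rfl

lemma Exs_succ (k s T : ℕ) (f : List (List (Fin k)) → ℝ) :
    Exs k s (T + 1) f = Ex k s fun w => Exs k s T fun l => f (w :: l) := by
  unfold Exs
  rw [Exc_succ]
  simp only [one_mul]

lemma Exs_congr {s T : ℕ} {f f' : List (List (Fin k)) → ℝ} (h : ∀ l, IsCells s T l → f l = f' l) :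
    Exs k s T f = Exs k s T f' := Exc_congr h

lemma Exs_mono {s T : ℕ} {f f' : List (List (Fin k)) → ℝ} (h : ∀ l, IsCells s T l → f l ≤ f' l) :
    Exs k s T f ≤ Exs k s T f' := Exc_mono (fun _ _ => zero_le_one) h

lemma Exs_add (s T : ℕ) (f f' : List (List (Fin k)) → ℝ) :
    Exs k s T (fun l => f l + f' l) = Exs k s T f + Exs k s T f' := Exc_add T f f'

lemma Exs_sub (s T : ℕ) (f f' : List (List (Fin k)) → ℝ) :
    Exs k s T (fun l => f l - f' l) = Exs k s T f - Exs k s T f' := Exc_sub T f f'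

lemma Exs_const_mul (s T : ℕ) (c : ℝ) (f : List (List (Fin k)) → ℝ) :
    Exs k s T (fun l => c * f l) = c * Exs k s T f := Exc_const_mul T c f

lemma Exs_mul_const (s T : ℕ) (c : ℝ) (f : List (List (Fin k)) → ℝ) :
    Exs k s T (fun l => f l * c) = Exs k s T f * c := Exc_mul_const T c f

lemma Exs_finset_sum {ι : Type*} (S : Finset ι) (s T : ℕ) (f : ι → List (List (Fin k)) → ℝ) :
    Exs k s T (fun l => ∑ i ∈ S, f i l) = ∑ i ∈ S, Exs k s T (f i) := Exc_finset_sum S T f

lemma Exs_const (hk : 0 < k) (s T : ℕ) (c : ℝ) : Exs k s T (fun _ => c) = c :=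
  Exc_const (one_dens hk s) T c

lemma Exs_zero_fun (s T : ℕ) : Exs k s T (fun _ => (0 : ℝ)) = 0 := Exc_zero_fun T

lemma Exs_nonneg {s T : ℕ} {f : List (List (Fin k)) → ℝ} (h : ∀ l, IsCells s T l → 0 ≤ f l) :
    0 ≤ Exs k s T f := Exc_nonneg (fun _ _ => zero_le_one) h

lemma Exs_le_const (hk : 0 < k) {s T : ℕ} {f : List (List (Fin k)) → ℝ} {c : ℝ}
    (h : ∀ l, IsCells s T l → f l ≤ c) : Exs k s T f ≤ c :=
  Exc_le_const (fun _ _ => zero_le_one) (one_dens hk s) h

lemma const_le_Exs (hk : 0 < k) {s T : ℕ} {f : List (List (Fin k)) → ℝ} {c : ℝ}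
    (h : ∀ l, IsCells s T l → c ≤ f l) : c ≤ Exs k s T f :=
  const_le_Exc (fun _ _ => zero_le_one) (one_dens hk s) h

lemma Exs_append (s T T' : ℕ) (f : List (List (Fin k)) → ℝ) :
    Exs k s (T + T') f = Exs k s T fun l => Exs k s T' fun l' => f (l ++ l') := Exc_append T T' f

lemma Exs_succ' (s T : ℕ) (f : List (List (Fin k)) → ℝ) :
    Exs k s (T + 1) f = Exs k s T fun l => Ex k s fun w => f (l ++ [w]) := by
  unfold Exs
  rw [Exc_succ']
  simp only [one_mul]

lemma Exs_cell (s T T' : ℕ) (f : List (List (Fin k)) → ℝ) :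
    Exs k s (T + 1 + T') f = Exs k s T fun l => Ex k s fun w => Exs k s T' fun l' =>
      f (l ++ w :: l') := by
  unfold Exs
  rw [Exc_cell]
  simp only [one_mul]

lemma Ex_Exs_comm (n s T : ℕ) (f : List (Fin k) → List (List (Fin k)) → ℝ) :
    Ex k n (fun y => Exs k s T fun l => f y l) = Exs k s T fun l => Ex k n fun y => f y l :=
  Ex_Exc_comm n T f

lemma Exs_reverse (s T : ℕ) (f : List (List (Fin k)) → ℝ) :
    Exs k s T (fun l => f l.reverse) = Exs k s T f := Exc_reverse T f

lemma Exs_map_prod (s T : ℕ) (h : List (Fin k) → ℝ) :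
    Exs k s T (fun l => (l.map h).prod) = (Ex k s h) ^ T := by
  unfold Exs
  rw [Exc_map_prod]
  simp only [one_mul]

lemma Exs_map_sum (hk : 0 < k) (s T : ℕ) (h : List (Fin k) → ℝ) :
    Exs k s T (fun l => (l.map h).sum) = T * Ex k s h := by
  unfold Exs
  rw [Exc_map_sum (one_dens hk s)]
  simp only [one_mul]

/-- general cells = uniform cells with a density -/
lemma Exc_eq_Exs (k s : ℕ) (g : List (Fin k) → ℝ) (T : ℕ) (f : List (List (Fin k)) → ℝ) :
    Exc k s g T f = Exs k s T fun l => (l.map g).prod * f l := by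
  unfold Exs
  rw [← Exc_dens_mul]
  simp only [one_mul]

/-- **uniform cells glued together are a uniform word** -/
lemma Exs_flatten (s T : ℕ) (f : List (Fin k) → ℝ) :
    Exs k s T (fun l => f l.flatten) = Ex k (T * s) f := by
  induction T generalizing f with
  | zero => simp
  | succ T ih =>
    rw [Exs_succ, show (T + 1) * s = s + T * s by ring, Ex_append]
    refine Ex_congr fun w _ => ?_
    simp only [List.flatten_cons]
    rw [ih fun v => f (w ++ v)]

lemma Exs_flatten' (s T : ℕ) (f : List (Fin k) → ℝ) :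
    Exs k s T (fun l => f l.flatten) = Ex k (s * T) f := by
  rw [Exs_flatten, mul_comm]

/-- cells of length one -/
lemma Exs_one_cells (T : ℕ) (f : List (Fin k) → ℝ) :
    Exs k 1 T (fun l => f l.flatten) = Ex k T f := by
  rw [Exs_flatten, mul_one]

/-- splitting a word into cells of length `s` -/
def cellsOf {α : Type*} (s : ℕ) : ℕ → List α → List (List α)
  | 0, _ => []
  | T + 1, y => y.take s :: cellsOf s T (y.drop s)

@[simp] lemma cellsOf_zero {α : Type*} (s : ℕ) (y : List α) : cellsOf s 0 y = [] := rfl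

@[simp] lemma cellsOf_succ {α : Type*} (s T : ℕ) (y : List α) :
    cellsOf s (T + 1) y = y.take s :: cellsOf s T (y.drop s) := rfl

lemma cellsOf_flatten {α : Type*} {s T : ℕ} {l : List (List α)} (h : IsCells s T l) :
    cellsOf s T l.flatten = l := by
  induction l generalizing T with
  | nil =>
    have : T = 0 := by simpa using h.1.symm
    simp [this]
  | cons w l ih =>
    obtain ⟨T, rfl⟩ : ∃ T', T = T' + 1 := ⟨l.length, by simpa using h.1.symm⟩
    rw [isCells_cons] at h
    rw [List.flatten_cons, cellsOf_succ, List.take_left' h.1, List.drop_left' h.1, ih h.2]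

lemma flatten_cellsOf {α : Type*} {s T : ℕ} {y : List α} (h : y.length = T * s) :
    (cellsOf s T y).flatten = y := by
  induction T generalizing y with
  | zero => simp at h; simp [h]
  | succ T ih =>
    rw [cellsOf_succ, List.flatten_cons, ih, List.take_append_drop]
    rw [List.length_drop, h, Nat.succ_mul]; omega

lemma isCells_cellsOf {α : Type*} {s T : ℕ} {y : List α} (h : y.length = T * s) :
    IsCells s T (cellsOf s T y) := by
  induction T generalizing y with
  | zero => exact isCells_nil s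
  | succ T ih =>
    rw [cellsOf_succ, isCells_cons]
    have h1 : (T + 1) * s = T * s + s := by ring
    refine ⟨?_, ih ?_⟩
    · rw [List.length_take]; omega
    · rw [List.length_drop]; omega

/-- a function of the cells, as a function of the word -/
lemma Exs_cellsOf (s T : ℕ) (f : List (List (Fin k)) → ℝ) :
    Ex k (T * s) (fun y => f (cellsOf s T y)) = Exs k s T f := by
  rw [← Exs_flatten]
  exact Exs_congr fun l hl => by rw [cellsOf_flatten hl]

/-- words as functions on `Fin n` -/
lemma Ex_eq_sum_pi (n : ℕ) (f : List (Fin k) → ℝ) :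
    Ex k n f = (∑ x : Fin n → Fin k, f (List.ofFn x)) / (k : ℝ) ^ n := by
  induction n generalizing f with
  | zero => simp
  | succ n ih =>
    rw [Ex_succ]
    have h1 : (∑ x : Fin (n + 1) → Fin k, f (List.ofFn x)) =
        ∑ c : Fin k, ∑ x : Fin n → Fin k, f (c :: List.ofFn x) := by
      rw [← Fintype.sum_prod_type']
      refine Fintype.sum_equiv (Fin.consEquiv fun _ => Fin k).symm _ _ fun x => ?_
      rw [List.ofFn_succ]
      rfl
    rw [h1, pow_succ]
    simp only [ih]
    rw [← Finset.sum_div, div_div]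

end Exs

/-! ### windows of prescribed lengths -/

section Exl

variable {k : ℕ}

/-- mean over lists of independent uniform words of prescribed lengths -/
def Exl (k : ℕ) : List ℕ → (List (List (Fin k)) → ℝ) → ℝ
  | [], f => f []
  | c :: cs, f => Ex k c fun v => Exl k cs fun l => f (v :: l)

@[simp] lemma Exl_nil (k : ℕ) (f : List (List (Fin k)) → ℝ) : Exl k [] f = f [] := rfl

lemma Exl_cons (k : ℕ) (c : ℕ) (cs : List ℕ) (f : List (List (Fin k)) → ℝ) :
    Exl k (c :: cs) f = Ex k c fun v => Exl k cs fun l => f (v :: l) := rfl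

lemma Exl_replicate (s T : ℕ) (f : List (List (Fin k)) → ℝ) :
    Exl k (List.replicate T s) f = Exs k s T f := by
  induction T generalizing f with
  | zero => rfl
  | succ T ih =>
    rw [List.replicate_succ, Exl_cons, Exs_succ]
    exact Ex_congr fun w _ => ih _

lemma Exl_congr {cs : List ℕ} {f f' : List (List (Fin k)) → ℝ}
    (h : ∀ l, l.map List.length = cs → f l = f' l) : Exl k cs f = Exl k cs f' := by
  induction cs generalizing f f' with
  | nil => exact h [] rfl
  | cons c cs ih =>
    rw [Exl_cons, Exl_cons]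
    exact Ex_congr fun v hv => ih fun l hl => h _ (by simp [hv, hl])

lemma Exl_mono {cs : List ℕ} {f f' : List (List (Fin k)) → ℝ}
    (h : ∀ l, l.map List.length = cs → f l ≤ f' l) : Exl k cs f ≤ Exl k cs f' := by
  induction cs generalizing f f' with
  | nil => exact h [] rfl
  | cons c cs ih =>
    rw [Exl_cons, Exl_cons]
    exact Ex_mono fun v hv => ih fun l hl => h _ (by simp [hv, hl])

lemma Exl_add (cs : List ℕ) (f f' : List (List (Fin k)) → ℝ) :
    Exl k cs (fun l => f l + f' l) = Exl k cs f + Exl k cs f' := by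
  induction cs generalizing f f' with
  | nil => rfl
  | cons c cs ih =>
    rw [Exl_cons, Exl_cons, Exl_cons, ← Ex_add]
    exact Ex_congr fun v _ => ih _ _

lemma Exl_const_mul (cs : List ℕ) (c : ℝ) (f : List (List (Fin k)) → ℝ) :
    Exl k cs (fun l => c * f l) = c * Exl k cs f := by
  induction cs generalizing f with
  | nil => rfl
  | cons c' cs ih =>
    rw [Exl_cons, Exl_cons, ← Ex_const_mul]
    exact Ex_congr fun v _ => ih _

lemma Exl_mul_const (cs : List ℕ) (c : ℝ) (f : List (List (Fin k)) → ℝ) :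
    Exl k cs (fun l => f l * c) = Exl k cs f * c := by
  rw [mul_comm, ← Exl_const_mul]
  exact Exl_congr fun l _ => mul_comm _ _

lemma Exl_const (hk : 0 < k) (cs : List ℕ) (c : ℝ) : Exl k cs (fun _ => c) = c := by
  induction cs with
  | nil => rfl
  | cons c' cs ih =>
    rw [Exl_cons]
    simp only [ih, Ex_const hk]

lemma Exl_finset_sum {ι : Type*} (S : Finset ι) (cs : List ℕ) (f : ι → List (List (Fin k)) → ℝ) :
    Exl k cs (fun l => ∑ i ∈ S, f i l) = ∑ i ∈ S, Exl k cs (f i) := by
  induction cs generalizing f with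
  | nil => rfl
  | cons c' cs ih =>
    simp only [Exl_cons]
    rw [← Ex_finset_sum]
    exact Ex_congr fun v _ => ih _

lemma Exl_nonneg {cs : List ℕ} {f : List (List (Fin k)) → ℝ}
    (h : ∀ l, l.map List.length = cs → 0 ≤ f l) : 0 ≤ Exl k cs f := by
  have := Exl_mono (k := k) (cs := cs) (f := fun _ => 0) (f' := f) h
  have h0 : Exl k cs (fun _ => (0 : ℝ)) = 0 := by
    simpa using Exl_const_mul (k := k) cs 0 (fun _ => 0)
  rwa [h0] at this

lemma Exl_append (cs cs' : List ℕ) (f : List (List (Fin k)) → ℝ) :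
    Exl k (cs ++ cs') f = Exl k cs fun l => Exl k cs' fun l' => f (l ++ l') := by
  induction cs generalizing f with
  | nil => simp
  | cons c cs ih =>
    rw [List.cons_append, Exl_cons, Exl_cons]
    exact Ex_congr fun v _ => ih _

lemma Ex_Exl_comm (n : ℕ) (cs : List ℕ) (f : List (Fin k) → List (List (Fin k)) → ℝ) :
    Ex k n (fun y => Exl k cs fun l => f y l) = Exl k cs fun l => Ex k n fun y => f y l := by
  induction cs generalizing f with
  | nil => rfl
  | cons c cs ih =>
    simp only [Exl_cons]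
    rw [Ex_comm]
    exact Ex_congr fun w _ => ih _

lemma Exl_Exc_comm {s : ℕ} {g : List (Fin k) → ℝ} (T : ℕ) (cs : List ℕ)
    (f : List (List (Fin k)) → List (List (Fin k)) → ℝ) :
    Exl k cs (fun v => Exc k s g T fun l => f v l) =
      Exc k s g T fun l => Exl k cs fun v => f v l := by
  induction cs generalizing f with
  | nil => rfl
  | cons c cs ih =>
    simp only [Exl_cons]
    rw [← Ex_Exc_comm]
    exact Ex_congr fun w _ => ih _

/-- **windows glued together are a uniform word** -/
lemma Exl_flatten (cs : List ℕ) (f : List (Fin k) → ℝ) :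
    Exl k cs (fun l => f l.flatten) = Ex k cs.sum f := by
  induction cs generalizing f with
  | nil => simp
  | cons c cs ih =>
    rw [Exl_cons, List.sum_cons, Ex_append]
    refine Ex_congr fun w _ => ?_
    simp only [List.flatten_cons]
    rw [ih fun v => f (w ++ v)]

/-- the windows of prescribed lengths of a word -/
def wins {α : Type*} : List ℕ → List α → List (List α)
  | [], _ => []
  | c :: cs, y => y.take c :: wins cs (y.drop c)

@[simp] lemma wins_nil {α : Type*} (y : List α) : wins [] y = [] := rfl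

@[simp] lemma wins_cons {α : Type*} (c : ℕ) (cs : List ℕ) (y : List α) :
    wins (c :: cs) y = y.take c :: wins cs (y.drop c) := rfl

@[simp] lemma wins_length {α : Type*} (cs : List ℕ) (y : List α) :
    (wins cs y).length = cs.length := by
  induction cs generalizing y with
  | nil => rfl
  | cons c cs ih => simp [ih]

lemma wins_flatten {α : Type*} (vs : List (List α)) :
    wins (vs.map List.length) vs.flatten = vs := by
  induction vs with
  | nil => rfl
  | cons v vs ih =>
    rw [List.map_cons, List.flatten_cons, wins_cons, List.take_left' rfl, List.drop_left' rfl, ih]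

lemma flatten_wins {α : Type*} {cs : List ℕ} {y : List α} (h : y.length = cs.sum) :
    (wins cs y).flatten = y := by
  induction cs generalizing y with
  | nil => simp at h; simp [h]
  | cons c cs ih =>
    rw [List.sum_cons] at h
    rw [wins_cons, List.flatten_cons, ih, List.take_append_drop]
    rw [List.length_drop]; omega

lemma map_length_wins {α : Type*} {cs : List ℕ} {y : List α} (h : y.length = cs.sum) :
    (wins cs y).map List.length = cs := by
  induction cs generalizing y with
  | nil => rfl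
  | cons c cs ih =>
    rw [List.sum_cons] at h
    rw [wins_cons, List.map_cons, ih (by rw [List.length_drop]; omega), List.length_take]
    congr 1
    omega

/-- a function of the windows, as a function of the word -/
lemma Exl_wins (cs : List ℕ) (f : List (List (Fin k)) → ℝ) :
    Ex k cs.sum (fun y => f (wins cs y)) = Exl k cs f := by
  rw [← Exl_flatten]
  refine Exl_congr fun l hl => ?_
  rw [← hl, wins_flatten]

/-- **cells against windows of prescribed lengths**: product formula -/
lemma Exc_Exl_prod {s : ℕ} {g : List (Fin k) → ℝ} (cs : List ℕ)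
    (h : List (Fin k) → List (Fin k) → ℝ) :
    (Exc k s g cs.length fun xs => Exl k cs fun vs => (List.zipWith h xs vs).prod) =
      (cs.map fun c => Ex k s fun x => g x * Ex k c fun v => h x v).prod := by
  induction cs with
  | nil => simp
  | cons c cs ih =>
    rw [List.length_cons, Exc_succ, List.map_cons, List.prod_cons, ← ih, ← Ex_mul_const]
    refine Ex_congr fun x _ => ?_
    simp only [Exl_cons, List.zipWith_cons_cons, List.prod_cons]
    rw [mul_assoc, ← Ex_mul_const]
    congr 1
    rw [← Ex_Exc_comm]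
    refine Ex_congr fun v _ => ?_
    simp only [Exl_const_mul, Exc_const_mul]

/-- **cells against windows of prescribed lengths**: an exponential moment bound -/
lemma Exc_Exl_prod_le {s : ℕ} {g : List (Fin k) → ℝ} (hg : ∀ w, w.length = s → 0 ≤ g w)
    (cs : List ℕ) (h : List (Fin k) → List (Fin k) → ℝ)
    (hh : ∀ x v, x.length = s → 0 ≤ h x v) {M : ℝ}
    (hM : ∀ c ∈ cs, (Ex k s fun x => g x * Ex k c fun v => h x v) ≤ M) :
    (Exc k s g cs.length fun xs => Exl k cs fun vs => (List.zipWith h xs vs).prod) ≤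
      M ^ cs.length := by
  rw [Exc_Exl_prod]
  have h0 : ∀ c : ℕ, 0 ≤ Ex k s fun x => g x * Ex k c fun v => h x v := fun c =>
    Ex_nonneg fun x hx => mul_nonneg (hg x hx) (Ex_nonneg fun v _ => hh x v hx)
  induction cs with
  | nil => simp
  | cons c cs ih =>
    rw [List.map_cons, List.prod_cons, List.length_cons, pow_succ']
    refine mul_le_mul (hM c (by simp)) (ih fun c' hc' => hM c' (by simp [hc'])) ?_
      ((h0 c).trans (hM c (by simp)))
    exact List.prod_nonneg (by
      intro a ha
      obtain ⟨c', -, rfl⟩ := List.mem_map.mp ha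
      exact h0 c')

end Exl

/-! ### the density `gth` -/

section gth

variable {k : ℕ}

lemma Ex_gth (hk : 0 < k) (s : ℕ) (o : Fin k) (θ : ℝ) : Ex k s (gth k s o θ) = 1 := by
  unfold gth
  rw [Ex_sub, Ex_const hk, Ex_const_mul]
  have h := Ex_ind_eq' (List.replicate s o)
  rw [List.length_replicate] at h
  rw [h]
  have hk' : (k : ℝ) ≠ 0 := by positivity
  rw [mul_assoc, ← mul_pow, mul_inv_cancel₀ hk', one_pow]
  ring

lemma gth_le {s : ℕ} {o : Fin k} {θ : ℝ} (hθ : 0 ≤ θ) (w : List (Fin k)) :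
    gth k s o θ w ≤ 1 + θ := by
  unfold gth
  have : 0 ≤ θ * (k : ℝ) ^ s * ind (w = List.replicate s o) :=
    mul_nonneg (by positivity) (ind_nonneg _)
  linarith

lemma gth_nonneg {s : ℕ} {o : Fin k} {θ : ℝ} (hθ : 0 ≤ θ) (h : θ * (k : ℝ) ^ s ≤ 1)
    (w : List (Fin k)) : 0 ≤ gth k s o θ w := by
  unfold gth
  have h1 : θ * (k : ℝ) ^ s * ind (w = List.replicate s o) ≤ 1 * 1 :=
    mul_le_mul h (ind_le_one _) (ind_nonneg _) zero_le_one
  linarith

end gth

end

end Pool.Agent.LCSV
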