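import Pool.Agent.Work.MP_bec1e1_lv_h99.UCC
import Pool.Agent.Work.MP_bec1e1_TOOL_h13.Cuts

/-!
# UCONV: from the list form to `UnitData`
-/

set_option autoImplicit false
set_option maxHeartbeats 1000000

open Filter Topology
open scoped BigOperators

namespace Pool.Agent.LCSV
namespace UC

open Pool.Agent.LCSE

noncomputable section

lemma sumL_castR {α : Type} (xs vs : List (List α)) :
    ((Pool.Agent.LCST.sumL xs vs : ℕ) : ℝ) =
      (List.zipWith (fun x v => (L x v : ℝ)) xs vs).sum := by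
  induction xs generalizing vs with
  | nil => simp
  | cons x xs ih =>
    cases vs with
    | nil => simp
    | cons v vs => simp [ih]

lemma exists_win (k : ℕ) : ∃ win : List (List (Fin k)) → List (Fin k) → List (List (Fin k)),
    ∀ xs y, xs ≠ [] → OptWin xs y (win xs y) := by
  classical
  have h : ∀ (xs : List (List (Fin k))) (y : List (Fin k)), ∃ vs, xs ≠ [] → OptWin xs y vs := by
    intro xs y
    by_cases hx : xs = []
    · exact ⟨[], fun h => absurd hx h⟩
    · obtain ⟨ys, h1, h2, h3⟩ := Pool.Agent.LCST.L_flatten_split xs hx y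
      exact ⟨ys, fun _ => ⟨h1, h2, by rw [h3, sumL_castR]⟩⟩
  choose win hwin using h
  exact ⟨win, hwin⟩

/-- `R` dominates the domination exponent -/
lemma eventually_log (k n : ℕ) (A₀ : ℝ) (hA : 0 < A₀) :
    ∀ᶠ R : ℕ in atTop, A₀ * (Real.log (k * (R * n : ℕ) + 1) + 1 + 1) ≤ R := by
  -- `log y ≤ 2 √y`
  have hlog : ∀ y : ℝ, 0 < y → Real.log y ≤ 2 * √y := by
    intro y hy
    have h1 : Real.log y = 2 * Real.log (√y) := by
      rw [Real.log_sqrt hy.le]; ring
    have h2 := Real.log_le_sub_one_of_pos (Real.sqrt_pos.mpr hy)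
    rw [h1]; linarith
  set c : ℝ := (k : ℝ) * n + 1 with hc
  have hc1 : 1 ≤ c := by
    have : (0 : ℝ) ≤ (k : ℝ) * n := by positivity
    linarith
  obtain ⟨M, hM⟩ := exists_nat_ge ((2 * A₀ * (√c + 1)) ^ 2)
  filter_upwards [eventually_ge_atTop M, eventually_ge_atTop 1] with R hR hR1
  have hR' : (1 : ℝ) ≤ R := by exact_mod_cast hR1
  have h1 : (k : ℝ) * (R * n : ℕ) + 1 ≤ c * R := by
    push_cast
    rw [hc]
    nlinarith
  have h2 : 0 < (k : ℝ) * (R * n : ℕ) + 1 := by positivity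
  have h3 : Real.log (k * (R * n : ℕ) + 1) ≤ 2 * (√c * √(R : ℝ)) := by
    calc Real.log (k * (R * n : ℕ) + 1) ≤ Real.log (c * R) := Real.log_le_log h2 h1
      _ ≤ 2 * √(c * R) := hlog _ (by positivity)
      _ = 2 * (√c * √(R : ℝ)) := by rw [Real.sqrt_mul (by linarith)]
  have h4 : 1 ≤ √(R : ℝ) := Real.one_le_sqrt.mpr hR'
  have h5 : 2 * A₀ * (√c + 1) ≤ √(R : ℝ) := by
    apply Real.le_sqrt_of_sq_le
    refine hM.trans ?_
    exact_mod_cast hR
  have h6 : √(R : ℝ) * √(R : ℝ) = R := Real.mul_self_sqrt (by linarith)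
  have hs : 0 ≤ √c := Real.sqrt_nonneg c
  calc A₀ * (Real.log (k * (R * n : ℕ) + 1) + 1 + 1)
      ≤ A₀ * (2 * (√c * √(R : ℝ)) + 2 * √(R : ℝ)) := by
        refine mul_le_mul_of_nonneg_left ?_ hA.le
        linarith
    _ = (2 * A₀ * (√c + 1)) * √(R : ℝ) := by ring
    _ ≤ √(R : ℝ) * √(R : ℝ) := mul_le_mul_of_nonneg_right h5 (by linarith)
    _ = R := h6

end

end UC

open UC Pool.Agent.LCSE

theorem stmt_UCONV : Stmt_UCONV := by
  intro hDEF hPHI hKERQ hKERR hUDOM hUNIF hULUCK hQ k hk hRig z hz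
  have hk0 : 0 < k := by omega
  have hk' : (2 : ℝ) ≤ k := by exact_mod_cast hk
  obtain ⟨n, δ, b₁, q, hn, hδ, hb₁, hq⟩ := hKERQ hQ k hk hRig (z / 16) (by positivity)
  have hlogk : 0 ≤ Real.log k := Real.log_nonneg (by linarith)
  have hn' : (1 : ℝ) ≤ n := by exact_mod_cast hn
  refine ⟨δ / 8, n, b₁ + n * Real.log k, by positivity, by linarith, by positivity, ?_⟩
  intro A₀ hA₀
  have hUL := hULUCK k hk hRig n (z / 16) δ b₁ q hn (by positivity) hδ hq
  obtain ⟨R, hR1, hR2, hR3⟩ :=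
    (hUL.and ((eventually_log k n A₀ hA₀).and (eventually_ge_atTop 1))).exists
  obtain ⟨win, hwin⟩ := exists_win k
  obtain ⟨C, hC, hDEFk⟩ := hDEF k hk
  set l : ℕ := R * n with hl
  set e : ℕ := ⌊(rho k - 1) * l⌋₊ with he
  set T₀ : ℕ := ⌈C * √(((k : ℝ) + 1) * l)⌉₊ + 1 with hT₀
  obtain ⟨T, N, b, hN, hT0, hT1, hflat, hTb, hbk, hg, hsq, hluck, hent⟩ :=
    hR1 l e rfl rfl win hwin T₀
  obtain ⟨hKd, hMd, hKm, -⟩ := hKERR k n R (z / 16) δ b₁ q hk0 hn hq
  have hN' : (2 : ℝ) ≤ N := by exact_mod_cast hN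
  refine ⟨T * (l + e) + b, T, R, N, Real.log (k * (R * n : ℕ) + 1) + 1, Fin n → Fin k,
    Om k T l e b, inferInstance, inferInstance, inferInstance, hN, ?_, hR3, ?_, hR2, ?_⟩
  · calc N = 1 * N := (one_mul N).symm
      _ ≤ T₀ * N := Nat.mul_le_mul_right N (by rw [hT₀]; omega)
      _ ≤ T := hT0
  · have : 0 ≤ Real.log (k * (R * n : ℕ) + 1) := Real.log_nonneg (by
      have : (0 : ℝ) ≤ (k : ℝ) * (R * n : ℕ) := by positivity
      linarith)
    linarith
  · have hΓpos : 0 ≤ 1 / (N : ℝ) * T * R := by positivity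
    refine unit_of hk0 hn hT1 hN hq hb₁.le hKd hMd hKm hg win hwin hbk hUNIF hUDOM
      (1 / (N : ℝ) * T * R * (δ / 8)) (z * (1 / (N : ℝ) * T * R * (δ / 8))) ?_ ?_
    · -- luck
      have h1 := hDEFk b (T * l)
      have h2 : Phi k b ((T * l : ℕ) : ℝ) = al k * (((T * l : ℕ) : ℝ) + b) := by
        rw [(hPHI k hk).comm]; exact hflat
      rw [h2] at h1
      have hl0 : (0 : ℝ) ≤ l := by positivity
      have hT' : (1 : ℝ) ≤ T := by exact_mod_cast hT1
      have hbk' : (b : ℝ) ≤ k * (T * l) := by exact_mod_cast hbk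
      have h3 : C * √((b : ℝ) + (T * l : ℕ)) ≤ T₀ * √(T : ℝ) := by
        have h4 : (b : ℝ) + (T * l : ℕ) ≤ ((k : ℝ) + 1) * l * T := by
          push_cast
          nlinarith
        calc C * √((b : ℝ) + (T * l : ℕ)) ≤ C * √(((k : ℝ) + 1) * l * T) :=
              mul_le_mul_of_nonneg_left (Real.sqrt_le_sqrt h4) hC.le
          _ = C * √(((k : ℝ) + 1) * l) * √(T : ℝ) := by
              rw [Real.sqrt_mul (by positivity)]; ring
          _ ≤ T₀ * √(T : ℝ) := by
              refine mul_le_mul_of_nonneg_right ?_ (Real.sqrt_nonneg _)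
              rw [hT₀]
              push_cast
              have := Nat.le_ceil (C * √(((k : ℝ) + 1) * l))
              linarith
      have h5 : gam k = 2 * al k := by unfold al; ring
      rw [h5, ← hl]
      have h7 : ((T * (l + e) + b : ℕ) : ℝ) = T * (l + e) + b := by push_cast; ring
      rw [h7]
      have h6 : ((T * l : ℕ) : ℝ) = T * l := by push_cast; ring
      rw [h6] at h1 h3
      linarith [h1, h3, hsq, hluck]
    · refine hent.trans (le_of_eq ?_)
      ring

end Pool.Agent.LCSV
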