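import Pool.Agent.Work.MP_bec1e1_FIN_h39.Interface
import Pool.Agent.Work.MP_bec1e1_lv_h99.EXC

/-!
# FIN blocks BB, TILT, CONC
-/

set_option autoImplicit false
set_option maxHeartbeats 400000

open Filter Topology
open scoped BigOperators

namespace Pool.Agent.LCSV

open Pool.Agent.LCSE

noncomputable section

/-! ### BB -/

lemma NN_eq_HH_mul (k s : ℕ) : NN k s = HH k s * k ^ (s / 2) := by
  unfold NN HH
  rw [← pow_add]
  congr 1
  omega

lemma tendsto_pow_half {k : ℕ} (hk : 2 ≤ k) :
    Tendsto (fun s : ℕ => ((k : ℝ) ^ (s / 2))) atTop atTop := by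
  have h1 : Tendsto (fun n : ℕ => (k : ℝ) ^ n) atTop atTop :=
    tendsto_pow_atTop_atTop_of_one_lt (by exact_mod_cast (by omega : 1 < k))
  exact h1.comp (Nat.tendsto_div_const_atTop (by norm_num))

theorem stmt_BB : Stmt_BB := by
  intro k hk hP ε hε
  rcases eq_or_lt_of_le hP.rho_one with h1 | h1
  · refine Eventually.of_forall fun s => ?_
    have hb : bb k s = NN k s * s := by
      unfold bb
      rw [if_pos h1.symm]
    refine ⟨hb.ge, ?_, ?_, fun _ => hb, fun h => absurd h (by rw [← h1]; exact lt_irrefl _)⟩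
    · rw [hb, ← h1]; push_cast; linarith
    · rw [hb, ← h1]; push_cast
      have : (0 : ℝ) ≤ (NN k s : ℝ) * s := by positivity
      nlinarith
  · have hM := (tendsto_pow_half hk).eventually_ge_atTop
      (rho k / (rho k - 1) + (rho k + 1) / ε)
    filter_upwards [hM, eventually_ge_atTop 1] with s hs hs1
    have hr1 : 0 < rho k - 1 := by linarith
    have hr0 : 0 < rho k := by linarith
    set M : ℝ := (k : ℝ) ^ (s / 2) with hMdef
    have hM1 : rho k ≤ (rho k - 1) * M := by
      have h2 : rho k / (rho k - 1) ≤ M := by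
        have : 0 ≤ (rho k + 1) / ε := by positivity
        linarith
      rw [div_le_iff₀ hr1] at h2
      linarith
    have hM2 : rho k + 1 ≤ ε * M := by
      have h2 : (rho k + 1) / ε ≤ M := by
        have : 0 ≤ rho k / (rho k - 1) := by positivity
        linarith
      rw [div_le_iff₀ hε] at h2
      linarith
    have hM0 : 1 ≤ M := by
      rw [hMdef]
      exact one_le_pow₀ (by exact_mod_cast (by omega : 1 ≤ k))
    have hH1 : (1 : ℝ) ≤ HH k s := by
      have : 1 ≤ HH k s := Nat.one_le_pow _ _ (by omega)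
      exact_mod_cast this
    have hN : (NN k s : ℝ) = HH k s * M := by
      rw [NN_eq_HH_mul]; push_cast; rfl
    have hs1' : (1 : ℝ) ≤ s := by exact_mod_cast hs1
    have hNH : (HH k s : ℝ) ≤ NN k s := by
      rw [hN]; nlinarith
    have hne : ¬ rho k = 1 := h1.ne'
    have hb : bb k s = ⌊rho k * ((NN k s : ℝ) - HH k s) * s⌋₊ := by
      unfold bb
      rw [if_neg hne]
    have hx0 : 0 ≤ rho k * ((NN k s : ℝ) - HH k s) * s := by
      have : 0 ≤ (NN k s : ℝ) - HH k s := by linarith
      positivity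
    have hfl : (bb k s : ℝ) ≤ rho k * ((NN k s : ℝ) - HH k s) * s := by
      rw [hb]; exact Nat.floor_le hx0
    have hfl' : rho k * ((NN k s : ℝ) - HH k s) * s - 1 < bb k s := by
      rw [hb]
      have := Nat.lt_floor_add_one (rho k * ((NN k s : ℝ) - HH k s) * s)
      linarith
    have hHs : (1 : ℝ) ≤ HH k s * s := by nlinarith
    refine ⟨?_, ?_, ?_, fun h => absurd h hne, fun _ => by rw [← mul_assoc]; exact hfl⟩
    · rw [hb]
      apply Nat.le_floor
      push_cast
      rw [hN]
      have : (rho k) * (HH k s * s) ≤ (rho k - 1) * M * (HH k s * s) :=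
        mul_le_mul_of_nonneg_right hM1 (by positivity)
      nlinarith
    · refine hfl.trans ?_
      have : 0 ≤ rho k * (HH k s * s) := by positivity
      nlinarith
    · have h3 : (rho k + 1) * (HH k s * s) ≤ ε * M * (HH k s * s) :=
        mul_le_mul_of_nonneg_right hM2 (by positivity)
      have h4 : rho k * ((NN k s : ℝ) - HH k s) * s =
          rho k * (NN k s * s) - rho k * (HH k s * s) := by ring
      have h5 : ε * M * (HH k s * s) = ε * (NN k s * s) := by rw [hN]; ring
      rw [h4] at hfl'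
      rw [h5] at h3
      nlinarith

/-! ### TILT -/

/-- removing a block of rows costs at most its length -/
lemma L_remove_le {α : Type*} (A w B y : List α) : L (A ++ w ++ B) y ≤ L (A ++ B) y + w.length := by
  apply L_le
  intro l h1 h2
  obtain ⟨l12, l3, rfl, h12, h3⟩ := List.sublist_append_iff.mp h1
  obtain ⟨l1, l2', rfl, h1', h2'⟩ := List.sublist_append_iff.mp h12
  have h4 : (l1 ++ l3).Sublist (A ++ B) := h1'.append h3
  have h5 : (l1 ++ l3).Sublist (l1 ++ l2' ++ l3) :=
    (List.sublist_append_left l1 l2').append (List.Sublist.refl l3)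
  have h6 := le_L h4 (h5.trans h2)
  have h7 := h2'.length_le
  simp only [List.length_append] at h6 ⊢
  omega

lemma L_remove_ge {α : Type*} (A w B y : List α) : L (A ++ B) y ≤ L (A ++ w ++ B) y :=
  L_mono ((List.sublist_append_left A w).append (List.Sublist.refl B)) (List.Sublist.refl y)

lemma thm_le_one {k : ℕ} (hk : 2 ≤ k) {s : ℕ} {θ : ℝ} (h : θ ≤ thm k s) :
    θ * (k : ℝ) ^ s ≤ 1 := by
  have hk' : (0 : ℝ) < k := by exact_mod_cast (by omega : 0 < k)
  have hp : 0 < (k : ℝ) ^ s := by positivity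
  unfold thm at h
  calc θ * (k : ℝ) ^ s ≤ 1 / (2 * (k : ℝ) ^ s) * (k : ℝ) ^ s :=
        mul_le_mul_of_nonneg_right h hp.le
    _ = 1 / 2 := by field_simp
    _ ≤ 1 := by norm_num

/-- the mean of `gth * h` differs from the mean of `h` by at most `θ c` if `h` oscillates by `≤ c` -/
lemma Ex_gth_mul_sub {k : ℕ} (hk : 0 < k) (s : ℕ) (o : Fin k) {θ : ℝ} (hθ : 0 ≤ θ)
    (h : List (Fin k) → ℝ) {c : ℝ}
    (hh : ∀ w, w.length = s → |h w - h (List.replicate s o)| ≤ c) :
    |(Ex k s fun w => gth k s o θ w * h w) - Ex k s h| ≤ θ * c := by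
  set h0 := h (List.replicate s o) with hh0
  have hk' : (k : ℝ) ≠ 0 := by positivity
  have h1 : (Ex k s fun w => gth k s o θ w * h w) - Ex k s h =
      θ * Ex k s fun w => h w - h0 := by
    have h2 : (fun w : List (Fin k) => gth k s o θ w * h w) =
        fun w => (1 + θ) * h w - θ * (k : ℝ) ^ s * (ind (w = List.replicate s o) * h w) := by
      funext w; unfold gth; ring
    rw [h2, Ex_sub, Ex_const_mul, Ex_const_mul]
    have h3 := Ex_ind_eq (List.replicate s o) h
    rw [List.length_replicate] at h3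
    rw [h3, Ex_sub, Ex_const hk, ← hh0]
    have h4 : (k : ℝ) ^ s * ((k : ℝ)⁻¹) ^ s = 1 := by
      rw [← mul_pow, mul_inv_cancel₀ hk', one_pow]
    linear_combination (-θ * h0) * h4
  rw [h1, abs_mul, abs_of_nonneg hθ]
  refine mul_le_mul_of_nonneg_left ?_ hθ
  refine (Ex_abs_le _ _).trans ?_
  exact Ex_le_const hk hh

/-- tilted cells against uniform cells, for functions which change by at most `c` if one cell is
changed -/
lemma Exc_gth_sub {k : ℕ} (hk : 0 < k) (s : ℕ) (o : Fin k) {θ : ℝ} (hθ : 0 ≤ θ)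
    (hθ1 : θ * (k : ℝ) ^ s ≤ 1) {c : ℝ} (_hc : 0 ≤ c) (N : ℕ) (f : List (List (Fin k)) → ℝ)
    (hf : ∀ (l₁ l₂ : List (List (Fin k))) (w w' : List (Fin k)), l₁.length + l₂.length + 1 = N →
      (∀ u ∈ l₁, u.length = s) → (∀ u ∈ l₂, u.length = s) → w.length = s → w'.length = s →
      |f (l₁ ++ w :: l₂) - f (l₁ ++ w' :: l₂)| ≤ c) :
    |Exc k s (gth k s o θ) N f - Exs k s N f| ≤ N * (θ * c) := by
  induction N generalizing f with
  | zero => simp
  | succ N ih =>
    have hg : ∀ w : List (Fin k), w.length = s → 0 ≤ gth k s o θ w := fun w _ =>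
      gth_nonneg hθ hθ1 w
    have hg1 : Ex k s (gth k s o θ) = 1 := Ex_gth hk s o θ
    rw [Exc_succ, Exs_succ]
    set h : List (Fin k) → ℝ := fun w => Exs k s N fun l => f (w :: l) with hh
    have h1 : (Ex k s fun w => gth k s o θ w * Exc k s (gth k s o θ) N fun l => f (w :: l)) -
        Ex k s h = (Ex k s fun w => gth k s o θ w *
          ((Exc k s (gth k s o θ) N fun l => f (w :: l)) - h w)) +
        ((Ex k s fun w => gth k s o θ w * h w) - Ex k s h) := by
      have : (fun w : List (Fin k) => gth k s o θ w *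
          ((Exc k s (gth k s o θ) N fun l => f (w :: l)) - h w)) = fun w =>
          gth k s o θ w * (Exc k s (gth k s o θ) N fun l => f (w :: l)) - gth k s o θ w * h w := by
        funext w; ring
      rw [this, Ex_sub]
      ring
    have h2 : |Ex k s fun w => gth k s o θ w *
        ((Exc k s (gth k s o θ) N fun l => f (w :: l)) - h w)| ≤ N * (θ * c) := by
      refine (Ex_abs_le _ _).trans ?_
      calc (Ex k s fun w => |gth k s o θ w *
            ((Exc k s (gth k s o θ) N fun l => f (w :: l)) - h w)|)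
          ≤ Ex k s fun w => gth k s o θ w * (N * (θ * c)) := by
            refine Ex_mono fun w hw => ?_
            rw [abs_mul, abs_of_nonneg (hg w hw)]
            refine mul_le_mul_of_nonneg_left ?_ (hg w hw)
            refine ih (fun l => f (w :: l)) ?_
            intro l₁ l₂ u u' hl h₁ h₂ hu hu'
            have := hf (w :: l₁) l₂ u u' (by simp only [List.length_cons]; omega) (by
              intro v hv
              rcases List.mem_cons.mp hv with rfl | hv
              · exact hw
              · exact h₁ v hv) h₂ hu hu'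
            simpa using this
        _ = N * (θ * c) := by rw [Ex_mul_const, hg1, one_mul]
    have h3 : |(Ex k s fun w => gth k s o θ w * h w) - Ex k s h| ≤ θ * c := by
      refine Ex_gth_mul_sub hk s o hθ h fun w hw => ?_
      have h4 : h w - h (List.replicate s o) =
          Exs k s N fun l => f (w :: l) - f (List.replicate s o :: l) := by
        rw [Exs_sub]
      rw [h4]
      refine (Exc_abs_le (fun _ _ => zero_le_one) _ _).trans ?_
      refine Exs_le_const hk fun l hl => ?_
      have := hf [] l w (List.replicate s o) (by simp [hl.1]) (by simp) hl.2 hw (by simp)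
      simpa using this
    rw [h1]
    refine (abs_add_le _ _).trans ?_
    push_cast
    linarith

lemma L_cell_change {k s : ℕ} (l₁ l₂ : List (List (Fin k))) (w w' y : List (Fin k))
    (hw : w.length = s) (hw' : w'.length = s) :
    |(L (l₁ ++ w :: l₂).flatten y : ℝ) - L (l₁ ++ w' :: l₂).flatten y| ≤ s := by
  have h : ∀ v : List (Fin k), (l₁ ++ v :: l₂).flatten = l₁.flatten ++ v ++ l₂.flatten := by
    intro v; simp
  rw [h, h]
  have h1 := L_remove_le l₁.flatten w l₂.flatten y
  have h2 := L_remove_ge l₁.flatten w l₂.flatten y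
  have h3 := L_remove_le l₁.flatten w' l₂.flatten y
  have h4 := L_remove_ge l₁.flatten w' l₂.flatten y
  rw [hw] at h1
  rw [hw'] at h3
  rw [abs_le]
  have h1' : (L (l₁.flatten ++ w ++ l₂.flatten) y : ℝ) ≤ L (l₁.flatten ++ l₂.flatten) y + s := by
    exact_mod_cast h1
  have h2' : (L (l₁.flatten ++ l₂.flatten) y : ℝ) ≤ L (l₁.flatten ++ w ++ l₂.flatten) y := by
    exact_mod_cast h2
  have h3' : (L (l₁.flatten ++ w' ++ l₂.flatten) y : ℝ) ≤ L (l₁.flatten ++ l₂.flatten) y + s := by
    exact_mod_cast h3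
  have h4' : (L (l₁.flatten ++ l₂.flatten) y : ℝ) ≤ L (l₁.flatten ++ w' ++ l₂.flatten) y := by
    exact_mod_cast h4
  constructor <;> linarith

theorem stmt_TILT : Stmt_TILT := by
  intro k s N b o θ hk hθ hθ1
  have hk0 : 0 < k := by omega
  have hk' : (0 : ℝ) < k := by exact_mod_cast hk0
  have hp : 0 < (k : ℝ) ^ s := by positivity
  have h1 := Exc_gth_sub hk0 s o hθ (thm_le_one hk hθ1) (c := (s : ℝ)) (by positivity) N
    (fun xs => Ex k b fun y => (L xs.flatten y : ℝ)) (by
      intro l₁ l₂ w w' _ _ _ hw hw'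
      rw [← Ex_sub]
      refine (Ex_abs_le _ _).trans ?_
      exact Ex_le_const hk0 fun y _ => L_cell_change l₁ l₂ w w' y hw hw')
  have h2 : Exs k s N (fun xs => Ex k b fun y => (L xs.flatten y : ℝ)) = F k (N * s) b := by
    rw [Exs_flatten s N fun x => Ex k b fun y => (L x y : ℝ)]
    rfl
  rw [h2] at h1
  refine h1.trans ?_
  have h3 : θ ≤ 1 / (k : ℝ) ^ s := by
    refine hθ1.trans ?_
    unfold thm
    apply one_div_le_one_div_of_le hp
    linarith
  calc (N : ℝ) * (θ * s) ≤ N * (1 / (k : ℝ) ^ s * s) := by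
        refine mul_le_mul_of_nonneg_left (mul_le_mul_of_nonneg_right h3 ?_) ?_ <;> positivity
    _ = N * s / (k : ℝ) ^ s := by ring

/-! ### CONC -/

theorem stmt_CONC (hR : Stmt_ROWC) : Stmt_CONC := by
  intro k s N b o θ hk hθ hθ1
  have hk0 : 0 < k := by omega
  have hg : ∀ w : List (Fin k), w.length = s → 0 ≤ gth k s o θ w := fun w _ =>
    gth_nonneg hθ (thm_le_one hk hθ1) w
  have hg1 : Ex k s (gth k s o θ) = 1 := Ex_gth hk0 s o θ
  set g := gth k s o θ with hgdef
  -- all four terms as means over `A`, `X`, `B`, `y`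
  set M : (List (Fin k) → List (List (Fin k)) → List (Fin k) → ℝ) → ℝ := fun Φ =>
    Ex k s fun A => g A * Exc k s g N fun X => Ex k s fun B => g B * Φ A X B with hM
  have hMmono : ∀ Φ Ψ : List (Fin k) → List (List (Fin k)) → List (Fin k) → ℝ,
      (∀ A X B, Φ A X B ≤ Ψ A X B) → M Φ ≤ M Ψ := by
    intro Φ Ψ h
    refine Ex_mono fun A hA => mul_le_mul_of_nonneg_left (Exc_mono hg fun X _ => Ex_mono
      fun B hB => mul_le_mul_of_nonneg_left (h A X B) (hg B hB)) (hg A hA)
  have hMadd : ∀ Φ Ψ : List (Fin k) → List (List (Fin k)) → List (Fin k) → ℝ,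
      M (fun A X B => Φ A X B + Ψ A X B) = M Φ + M Ψ := by
    intro Φ Ψ
    simp only [hM, mul_add, Ex_add, Exc_add]
  set f : List (List (Fin k)) → ℝ := fun xs => Ex k b fun y => (L xs.flatten y : ℝ) with hf
  have e2 : EN k s o θ (N + 2) b = M fun A X B => f (A :: (X ++ [B])) := by
    unfold EN
    rw [show N + 2 = (N + 1) + 1 by ring, Exc_succ]
    refine Ex_congr fun A _ => ?_
    rw [Exc_succ']
  have e0 : EN k s o θ N b = M fun _ X _ => f X := by
    simp only [hM, Ex_mul_const, hg1, one_mul]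
    rfl
  have e1 : EN k s o θ (N + 1) b = M fun A X _ => f (A :: X) := by
    simp only [hM, Ex_mul_const, hg1, one_mul]
    unfold EN
    rw [Exc_succ]
  have e1' : EN k s o θ (N + 1) b = M fun _ X B => f (X ++ [B]) := by
    simp only [hM, Ex_mul_const, hg1, one_mul]
    unfold EN
    rw [Exc_succ']
  have h2 : 2 * EN k s o θ (N + 1) b = M fun A X B => f (A :: X) + f (X ++ [B]) := by
    rw [hMadd, ← e1, ← e1']; ring
  rw [e2, e0, h2, ← hMadd]
  refine hMmono _ _ fun A X B => ?_
  simp only [hf]
  rw [← Ex_add, ← Ex_add]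
  refine Ex_mono fun y _ => ?_
  have := hR k A X.flatten B y
  simp only [List.flatten_cons, List.flatten_append, List.flatten_nil, List.append_nil]
  rw [← List.append_assoc]
  exact_mod_cast this

end

end Pool.Agent.LCSV
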