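import Pool.Agent.Work.MP_bec1e1_lv_helper15.LUInterface
import Pool.Agent.Work.MP_bec1e1_lv_h99.EXC

/-!
# UCONV, part A: conversions between lists and finite products
-/

set_option autoImplicit false
set_option maxHeartbeats 400000

open Filter Topology
open scoped BigOperators

namespace Pool.Agent.LCSV
namespace UC

open Pool.Agent.LCSE

noncomputable section

/-! ### finite sums and Fubini -/

/-- the functional is a finite weighted sum of evaluations -/
def IsFS {α : Type} (Φ : (α → ℝ) → ℝ) : Prop :=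
  ∃ (ι : Type) (_ : Fintype ι) (w : ι → ℝ) (x : ι → α), ∀ f, Φ f = ∑ i, w i * f (x i)

lemma IsFS.comm {α β : Type} {Φ : (α → ℝ) → ℝ} {Ψ : (β → ℝ) → ℝ} (hΦ : IsFS Φ) (hΨ : IsFS Ψ)
    (f : α → β → ℝ) : Φ (fun a => Ψ fun b => f a b) = Ψ (fun b => Φ fun a => f a b) := by
  obtain ⟨ι, _, w, x, h⟩ := hΦ
  obtain ⟨κ, _, v, y, h'⟩ := hΨ
  simp only [h, h', Finset.mul_sum]
  rw [Finset.sum_comm]
  refine Finset.sum_congr rfl fun j _ => Finset.sum_congr rfl fun i _ => ?_
  ring

lemma IsFS.comp {α β : Type} {Φ : (α → ℝ) → ℝ} {Ψ : (β → ℝ) → ℝ} (hΦ : IsFS Φ) (m : α → β)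
    (h : ∀ f, Ψ f = Φ fun a => f (m a)) : IsFS Ψ := by
  obtain ⟨ι, _, w, x, h'⟩ := hΦ
  exact ⟨ι, inferInstance, w, fun i => m (x i), fun f => by rw [h, h']⟩

lemma isFS_PW {ι C : Type} [Fintype ι] [DecidableEq ι] [Fintype C] (w : ι → C → ℝ) :
    IsFS (PW w) := ⟨ι → C, inferInstance, fun c => ∏ i, w i (c i), id, fun _ => rfl⟩

lemma isFS_Ex (k n : ℕ) : IsFS (Ex k n) :=
  ⟨Fin n → Fin k, inferInstance, fun _ => ((k : ℝ) ^ n)⁻¹, List.ofFn, fun f => by
    rw [Ex_eq_sum_pi, div_eq_inv_mul, Finset.mul_sum]⟩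

/-! ### `PW` -/

lemma PW_succ {C : Type} [Fintype C] {m : ℕ} (w : Fin (m + 1) → C → ℝ)
    (f : (Fin (m + 1) → C) → ℝ) :
    PW w f = ∑ c0, w 0 c0 * PW (fun i : Fin m => w i.succ) fun c =>
      f (Fin.cons c0 c : Fin (m + 1) → C) := by
  unfold PW
  simp only [Finset.mul_sum]
  rw [← Fintype.sum_prod_type']
  refine Fintype.sum_equiv (Fin.consEquiv fun _ => C).symm _ _ fun x => ?_
  have h1 : (Fin.cons ((Fin.consEquiv fun _ => C).symm x).1 ((Fin.consEquiv fun _ => C).symm x).2 :
      Fin (m + 1) → C) = x := (Fin.consEquiv fun _ => C).apply_symm_apply x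
  rw [h1, Fin.prod_univ_succ, mul_assoc]
  rfl

lemma PW_zero {C : Type} [Fintype C] (w : Fin 0 → C → ℝ) (f : (Fin 0 → C) → ℝ) :
    PW w f = f Fin.elim0 := by
  unfold PW
  rw [Fintype.sum_unique]
  simp only [Finset.univ_eq_empty, Finset.prod_empty, one_mul]
  congr 1

lemma PW_mono {ι C : Type} [Fintype ι] [DecidableEq ι] [Fintype C] {w : ι → C → ℝ}
    (hw : ∀ i c, 0 ≤ w i c) {f g : (ι → C) → ℝ} (h : ∀ c, f c ≤ g c) : PW w f ≤ PW w g :=
  Finset.sum_le_sum fun c _ => mul_le_mul_of_nonneg_left (h c)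
    (Finset.prod_nonneg fun i _ => hw i (c i))

lemma PW_congr {ι C : Type} [Fintype ι] [DecidableEq ι] [Fintype C] {w : ι → C → ℝ}
    {f g : (ι → C) → ℝ} (h : ∀ c, f c = g c) : PW w f = PW w g := by
  have : f = g := funext h
  rw [this]

/-- product index -/
lemma PW_curry {C : Type} [Fintype C] {T R : ℕ} (w : Fin T × Fin R → C → ℝ)
    (f : (Fin T × Fin R → C) → ℝ) :
    PW w f = PW (fun i : Fin T => fun d : Fin R → C => ∏ r, w (i, r) (d r))
      fun d => f fun j => d j.1 j.2 := by
  unfold PW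
  refine Fintype.sum_equiv (Equiv.curry (Fin T) (Fin R) C) _ _ fun c => ?_
  rw [Fintype.prod_prod_type]
  rfl

/-! ### labels -/

lemma EB_eq (θ : ℝ) (T : ℕ) (f : List Bool → ℝ) :
    EB θ T f = PW (fun _ : Fin T => bw θ) fun bs => f (List.ofFn bs) := by
  induction T generalizing f with
  | zero => rw [PW_zero]; rfl
  | succ T ih =>
    rw [PW_succ, Fintype.sum_bool]
    simp only [List.ofFn_cons]
    rw [← ih fun l => f (true :: l), ← ih fun l => f (false :: l)]
    rfl

lemma isFS_EB (θ : ℝ) (T : ℕ) : IsFS (EB θ T) :=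
  (isFS_PW fun _ : Fin T => bw θ).comp _ (EB_eq θ T)

lemma EB_succ (θ : ℝ) (T : ℕ) (f : List Bool → ℝ) : EB θ (T + 1) f =
    θ * EB θ T (fun bs => f (true :: bs)) + (1 - θ) * EB θ T (fun bs => f (false :: bs)) := rfl

lemma EB_add (θ : ℝ) (T : ℕ) (f g : List Bool → ℝ) :
    EB θ T (fun b => f b + g b) = EB θ T f + EB θ T g := by
  induction T generalizing f g with
  | zero => rfl
  | succ T ih => simp only [EB_succ, ih]; ring

lemma EB_const (θ : ℝ) (T : ℕ) (c : ℝ) : EB θ T (fun _ => c) = c := by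
  induction T with
  | zero => rfl
  | succ T ih => simp only [EB_succ, ih]; ring

lemma EB_mono {θ : ℝ} (h0 : 0 ≤ θ) (h1 : θ ≤ 1) {T : ℕ} {f g : List Bool → ℝ}
    (h : ∀ bs, bs.length = T → f bs ≤ g bs) : EB θ T f ≤ EB θ T g := by
  induction T generalizing f g with
  | zero => exact h [] rfl
  | succ T ih =>
    rw [EB_succ, EB_succ]
    exact add_le_add (mul_le_mul_of_nonneg_left (ih fun bs hb => h _ (by simp [hb])) h0)
      (mul_le_mul_of_nonneg_left (ih fun bs hb => h _ (by simp [hb])) (by linarith))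

lemma EB_congr {θ : ℝ} {T : ℕ} {f g : List Bool → ℝ}
    (h : ∀ bs, bs.length = T → f bs = g bs) : EB θ T f = EB θ T g := by
  induction T generalizing f g with
  | zero => exact h [] rfl
  | succ T ih =>
    rw [EB_succ, EB_succ]
    rw [ih fun bs hb => h _ (by simp [hb]), ih fun bs hb => h _ (by simp [hb])]

/-! ### cells -/

section cells

variable {k : ℕ}

lemma Exc_eq (l : ℕ) (g : List (Fin k) → ℝ) (T : ℕ) (f : List (List (Fin k)) → ℝ) :
    Exc k l g T f = PW (fun _ : Fin T => fun d : Fin l → Fin k => g (List.ofFn d) / (k : ℝ) ^ l)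
      fun x => f (List.ofFn fun i => List.ofFn (x i)) := by
  induction T generalizing f with
  | zero => rw [PW_zero]; simp
  | succ T ih =>
    rw [Exc_succ, PW_succ, Ex_eq_sum_pi, Finset.sum_div]
    refine Finset.sum_congr rfl fun d _ => ?_
    rw [ih]
    rw [mul_comm (g (List.ofFn d)), mul_div_assoc, mul_comm]
    congr 1
    refine PW_congr fun c => ?_
    rw [List.ofFn_succ]
    simp

lemma isFS_Exc (l : ℕ) (g : List (Fin k) → ℝ) (T : ℕ) : IsFS (Exc k l g T) :=
  (isFS_PW fun _ : Fin T => fun d : Fin l → Fin k => g (List.ofFn d) / (k : ℝ) ^ l).comp _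
    (Exc_eq l g T)

lemma isFS_Exs (l T : ℕ) : IsFS (Exs k l T) := isFS_Exc l (fun _ => 1) T

/-- weight of the block `r` for the window `v` -/
def blk (n : ℕ) (q : List (Fin k) → List (Fin k) → ℝ) (v : List (Fin k)) (r : ℕ)
    (x : List (Fin k)) : ℝ :=
  if n ≤ (v.drop (r * n)).length then q ((v.drop (r * n)).take n) x else marg n q x

lemma blk_succ (n : ℕ) (q : List (Fin k) → List (Fin k) → ℝ) (v : List (Fin k)) (r : ℕ)
    (x : List (Fin k)) : blk n q v (r + 1) x = blk n q (v.drop n) r x := by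
  unfold blk
  have : (v.drop n).drop (r * n) = v.drop ((r + 1) * n) := by
    rw [List.drop_drop]; congr 1; ring
  rw [this]

lemma blk_zero (n : ℕ) (q : List (Fin k) → List (Fin k) → ℝ) (v : List (Fin k))
    (x : List (Fin k)) : blk n q v 0 x = if n ≤ v.length then q (v.take n) x else marg n q x := by
  unfold blk
  simp

/-- a cell made of blocks -/
def cellOf {n R : ℕ} (d : Fin R → Fin n → Fin k) : List (Fin k) :=
  (List.ofFn fun r => List.ofFn (d r)).flatten

/-- the cells made of blocks -/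
def cellsL {n R T : ℕ} (c : Fin T × Fin R → Fin n → Fin k) : List (List (Fin k)) :=
  List.ofFn fun i => cellOf fun r => c (i, r)

lemma cellOf_length {n R : ℕ} (d : Fin R → Fin n → Fin k) : (cellOf d).length = R * n := by
  have h : IsCells n R (List.ofFn fun r => List.ofFn (d r)) := by
    refine ⟨by simp, ?_⟩
    intro w hw
    obtain ⟨r, rfl⟩ := List.mem_ofFn.mp hw
    simp
  exact h.flatten_length

lemma cellOf_injective {n R : ℕ} : Function.Injective (cellOf (k := k) (n := n) (R := R)) := by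
  intro d d' h
  have hc : ∀ d : Fin R → Fin n → Fin k, IsCells n R (List.ofFn fun r => List.ofFn (d r)) := by
    intro d
    refine ⟨by simp, ?_⟩
    intro w hw
    obtain ⟨r, rfl⟩ := List.mem_ofFn.mp hw
    simp
  have h1 : (List.ofFn fun r => List.ofFn (d r)) = List.ofFn fun r => List.ofFn (d' r) := by
    rw [← cellsOf_flatten (hc d), ← cellsOf_flatten (hc d')]
    unfold cellOf at h
    rw [h]
  have h2 := List.ofFn_injective h1
  funext r
  exact List.ofFn_injective (congrFun h2 r)

lemma cellsL_injective {n R T : ℕ} :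
    Function.Injective (cellsL (k := k) (n := n) (R := R) (T := T)) := by
  intro c c' h
  have h1 := List.ofFn_injective h
  funext j
  have h2 := cellOf_injective (congrFun h1 j.1)
  exact congrFun h2 j.2

lemma cellOf_cons {n R : ℕ} (d0 : Fin n → Fin k) (d : Fin R → Fin n → Fin k) :
    cellOf (Fin.cons d0 d : Fin (R + 1) → Fin n → Fin k) = List.ofFn d0 ++ cellOf d := by
  unfold cellOf
  rw [List.ofFn_succ]
  simp

lemma Ex_cast {m m' : ℕ} (h : m = m') (f : List (Fin k) → ℝ) : Ex k m f = Ex k m' f := by rw [h]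

/-- the kernel of a cell as a product over the blocks -/
lemma PW_kern (n : ℕ) (q : List (Fin k) → List (Fin k) → ℝ) (R : ℕ) (v : List (Fin k))
    (f : List (Fin k) → ℝ) :
    PW (fun r : Fin R => fun d : Fin n → Fin k => blk n q v r (List.ofFn d) / (k : ℝ) ^ n)
      (fun c => f (cellOf c)) = Ex k (R * n) fun x => kernR n q R v x * f x := by
  induction R generalizing v f with
  | zero =>
    rw [PW_zero, Ex_cast (Nat.zero_mul n)]
    simp [kernR, cellOf]
  | succ R ih =>
    rw [PW_succ, Ex_cast (show (R + 1) * n = n + R * n by ring), Ex_append, Ex_eq_sum_pi,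
      Finset.sum_div]
    refine Finset.sum_congr rfl fun d _ => ?_
    have h1 : (fun c : Fin R → Fin n → Fin k => f (cellOf (Fin.cons d c : Fin (R + 1) → _))) =
        fun c => (fun x => f (List.ofFn d ++ x)) (cellOf c) := by
      funext c; rw [cellOf_cons]
    rw [h1]
    have h2 : (fun r : Fin R => fun d : Fin n → Fin k =>
        blk n q v ((r.succ : Fin (R + 1)) : ℕ) (List.ofFn d) / (k : ℝ) ^ n) =
        fun r : Fin R => fun d : Fin n → Fin k =>
        blk n q (v.drop n) r (List.ofFn d) / (k : ℝ) ^ n := by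
      funext r d
      rw [Fin.val_succ, blk_succ]
    rw [h2, ih (v.drop n) (fun x => f (List.ofFn d ++ x)), div_mul_eq_mul_div]
    congr 1
    rw [← Ex_const_mul]
    refine Ex_congr fun x _ => ?_
    have hl : (List.ofFn d).length = n := by simp
    simp only [kernR, List.take_left' hl, List.drop_left' hl, Fin.val_zero, blk_zero]
    ring

/-- the same for the marginal -/
lemma PW_marg (n : ℕ) (q : List (Fin k) → List (Fin k) → ℝ) (R : ℕ)
    (f : List (Fin k) → ℝ) :
    PW (fun _ : Fin R => fun d : Fin n → Fin k => marg n q (List.ofFn d) / (k : ℝ) ^ n)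
      (fun c => f (cellOf c)) = Ex k (R * n) fun x => margR n q R x * f x := by
  induction R generalizing f with
  | zero =>
    rw [PW_zero, Ex_cast (Nat.zero_mul n)]
    simp [margR, cellOf]
  | succ R ih =>
    rw [PW_succ, Ex_cast (show (R + 1) * n = n + R * n by ring), Ex_append, Ex_eq_sum_pi,
      Finset.sum_div]
    refine Finset.sum_congr rfl fun d _ => ?_
    have h1 : (fun c : Fin R → Fin n → Fin k => f (cellOf (Fin.cons d c : Fin (R + 1) → _))) =
        fun c => (fun x => f (List.ofFn d ++ x)) (cellOf c) := by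
      funext c; rw [cellOf_cons]
    rw [h1, ih (fun x => f (List.ofFn d ++ x)), div_mul_eq_mul_div]
    congr 1
    rw [← Ex_const_mul]
    refine Ex_congr fun x _ => ?_
    have hl : (List.ofFn d).length = n := by simp
    simp only [margR, List.take_left' hl, List.drop_left' hl]
    ring

/-- all cells, given the windows -/
lemma PW_Exk (n : ℕ) (q : List (Fin k) → List (Fin k) → ℝ) (R T : ℕ)
    (vs : List (List (Fin k))) (hvs : vs.length = T) (f : List (List (Fin k)) → ℝ) :
    PW (fun j : Fin T × Fin R => fun d : Fin n → Fin k =>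
      blk n q (vs.getD j.1 []) j.2 (List.ofFn d) / (k : ℝ) ^ n) (fun c => f (cellsL c)) =
      Exk (R * n) (kernR n q R) vs f := by
  rw [PW_curry]
  show PW (fun i : Fin T => fun d : Fin R → Fin n → Fin k =>
    ∏ r : Fin R, blk n q (vs.getD i []) r (List.ofFn (d r)) / (k : ℝ) ^ n)
      (fun d => f (List.ofFn fun i => cellOf (d i))) = _
  induction T generalizing vs f with
  | zero =>
    have : vs = [] := List.length_eq_zero_iff.mp hvs
    subst this
    rw [PW_zero]
    simp [Exk]
  | succ T ih =>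
    obtain ⟨v, vs, rfl⟩ : ∃ v vs', vs = v :: vs' := by
      cases vs with
      | nil => simp at hvs
      | cons v vs' => exact ⟨v, vs', rfl⟩
    have hvs' : vs.length = T := by simpa using hvs
    rw [PW_succ]
    have h1 : Exk (R * n) (kernR n q R) (v :: vs) f =
        Ex k (R * n) fun x => kernR n q R v x * Exk (R * n) (kernR n q R) vs fun cs => f (x :: cs) :=
      rfl
    rw [h1, ← PW_kern]
    unfold PW
    refine Finset.sum_congr rfl fun d _ => ?_
    congr 1
    have h2 := ih vs hvs' fun cs => f (cellOf d :: cs)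
    beta_reduce
    rw [← h2]
    unfold PW
    refine Finset.sum_congr rfl fun c _ => ?_
    congr 1
    rw [List.ofFn_succ]
    simp

lemma PW_Exc (n : ℕ) (q : List (Fin k) → List (Fin k) → ℝ) (R T : ℕ)
    (f : List (List (Fin k)) → ℝ) :
    PW (fun _ : Fin T × Fin R => fun d : Fin n → Fin k =>
      marg n q (List.ofFn d) / (k : ℝ) ^ n) (fun c => f (cellsL c)) =
      Exc k (R * n) (margR n q R) T f := by
  rw [PW_curry]
  show PW (fun _ : Fin T => fun d : Fin R → Fin n → Fin k =>
    ∏ r : Fin R, marg n q (List.ofFn (d r)) / (k : ℝ) ^ n)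
      (fun d => f (List.ofFn fun i => cellOf (d i))) = _
  induction T generalizing f with
  | zero => rw [PW_zero]; simp
  | succ T ih =>
    rw [PW_succ, Exc_succ, ← PW_marg]
    unfold PW
    refine Finset.sum_congr rfl fun d _ => ?_
    congr 1
    have h2 := ih fun cs => f (cellOf d :: cs)
    beta_reduce
    rw [← h2]
    unfold PW
    refine Finset.sum_congr rfl fun c _ => ?_
    congr 1
    rw [List.ofFn_succ]
    simp

/-! ### base data -/

/-- base data: cells, fresh words, diagonalising rows -/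
abbrev Om (k T l e b : ℕ) : Type :=
  (Fin T → Fin l → Fin k) × (Fin T → Fin e → Fin k) × (Fin b → Fin k)

variable {T l e b : ℕ}

def xsO (ω : Om k T l e b) : List (List (Fin k)) := List.ofFn fun i => List.ofFn (ω.1 i)
def zsO (ω : Om k T l e b) : List (List (Fin k)) := List.ofFn fun i => List.ofFn (ω.2.1 i)
def u2O (ω : Om k T l e b) : List (Fin k) := List.ofFn ω.2.2

lemma xsO_length (ω : Om k T l e b) : (xsO ω).length = T := by simp [xsO]

lemma u2O_length (ω : Om k T l e b) : (u2O ω).length = b := by simp [u2O]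

/-- law of the base data -/
def PO (g : List (Fin k) → ℝ) (ω : Om k T l e b) : ℝ :=
  (∏ i, g (List.ofFn (ω.1 i)) / (k : ℝ) ^ l) * ((∏ _i : Fin T, 1 / (k : ℝ) ^ e) *
    (1 / (k : ℝ) ^ b))

lemma sum_PO (g : List (Fin k) → ℝ)
    (G : List (List (Fin k)) → List (List (Fin k)) → List (Fin k) → ℝ) :
    ∑ ω : Om k T l e b, PO g ω * G (xsO ω) (zsO ω) (u2O ω) =
      Exc k l g T fun xs => Exs k e T fun zs => Ex k b fun u => G xs zs u := by
  rw [Fintype.sum_prod_type, Exc_eq]
  unfold PW
  refine Finset.sum_congr rfl fun x _ => ?_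
  rw [Fintype.sum_prod_type]
  unfold Exs
  beta_reduce
  rw [Exc_eq]
  unfold PW
  rw [Finset.mul_sum]
  refine Finset.sum_congr rfl fun z _ => ?_
  beta_reduce
  rw [Ex_eq_sum_pi, Finset.sum_div, Finset.mul_sum, Finset.mul_sum]
  refine Finset.sum_congr rfl fun u _ => ?_
  unfold PO xsO zsO u2O
  simp only
  ring

end cells

end

end UC
end Pool.Agent.LCSV
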