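import Pool.Agent.Work.MP_bec1e1_lv_h99.UCA

/-!
# UCONV, part B: Lipschitz property of the spliced word, lengths, entropy of a cell
-/

set_option autoImplicit false
set_option maxHeartbeats 400000

open Filter Topology
open scoped BigOperators

namespace Pool.Agent.LCSV
namespace UC

open Pool.Agent.LCSE

noncomputable section

/-! ### changing a factor -/

lemma L_rem_le {α : Type} (A w B y : List α) : L (A ++ w ++ B) y ≤ L (A ++ B) y + w.length := by
  apply L_le
  intro l h1 h2
  obtain ⟨l12, l3, rfl, h12, h3⟩ := List.sublist_append_iff.mp h1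
  obtain ⟨l1, l2', rfl, h1', h2'⟩ := List.sublist_append_iff.mp h12
  have h4 : (l1 ++ l3).Sublist (A ++ B) := h1'.append h3
  have h5 : (l1 ++ l3).Sublist (l1 ++ l2' ++ l3) :=
    (List.sublist_append_left l1 l2').append (List.Sublist.refl l3)
  have h6 := le_L h4 (h5.trans h2)
  have h7 := h2'.length_le
  simp only [List.length_append] at h6 ⊢
  omega

lemma L_rem_ge {α : Type} (A w B y : List α) : L (A ++ B) y ≤ L (A ++ w ++ B) y :=
  L_mono ((List.sublist_append_left A w).append (List.Sublist.refl B)) (List.Sublist.refl y)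

/-- replacing the factor `u` by `u'` changes the LCS by at most `m` -/
def CL {α : Type} (u u' : List α) (m : ℝ) : Prop :=
  ∀ A B y : List α, |(L (A ++ u ++ B) y : ℝ) - L (A ++ u' ++ B) y| ≤ m

variable {α : Type}

lemma CL.refl (u : List α) : CL u u 0 := by
  intro A B y; simp

lemma CL.mono {u u' : List α} {m m' : ℝ} (h : CL u u' m) (hm : m ≤ m') : CL u u' m' :=
  fun A B y => (h A B y).trans hm

lemma CL.append {u u' w w' : List α} {m m' : ℝ} (h : CL u u' m) (h' : CL w w' m') :
    CL (u ++ w) (u' ++ w') (m + m') := by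
  intro A B y
  have h1 := h A (w ++ B) y
  have h2 := h' (A ++ u') B y
  have e1 : A ++ (u ++ w) ++ B = A ++ u ++ (w ++ B) := by simp
  have e2 : A ++ u' ++ (w ++ B) = A ++ u' ++ w ++ B := by simp
  have e3 : A ++ (u' ++ w') ++ B = A ++ u' ++ w' ++ B := by simp
  rw [e1, e3]
  rw [e2] at h1
  calc |(L (A ++ u ++ (w ++ B)) y : ℝ) - L (A ++ u' ++ w' ++ B) y|
      = |((L (A ++ u ++ (w ++ B)) y : ℝ) - L (A ++ u' ++ w ++ B) y) +
          ((L (A ++ u' ++ w ++ B) y : ℝ) - L (A ++ u' ++ w' ++ B) y)| := by congr 1; ring
    _ ≤ _ := (abs_add_le _ _).trans (add_le_add h1 h2)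

lemma CL.of_length {u u' : List α} {n : ℕ} (h : u.length = n) (h' : u'.length = n) :
    CL u u' n := by
  intro A B y
  have h1 := L_rem_le A u B y
  have h2 := L_rem_ge A u B y
  have h3 := L_rem_le A u' B y
  have h4 := L_rem_ge A u' B y
  rw [h] at h1
  rw [h'] at h3
  have h1' : (L (A ++ u ++ B) y : ℝ) ≤ L (A ++ B) y + n := by exact_mod_cast h1
  have h2' : (L (A ++ B) y : ℝ) ≤ L (A ++ u ++ B) y := by exact_mod_cast h2
  have h3' : (L (A ++ u' ++ B) y : ℝ) ≤ L (A ++ B) y + n := by exact_mod_cast h3
  have h4' : (L (A ++ B) y : ℝ) ≤ L (A ++ u' ++ B) y := by exact_mod_cast h4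
  rw [abs_le]
  constructor <;> linarith

lemma CL.toL {u u' : List α} {m : ℝ} (h : CL u u' m) (B y : List α) :
    |(L (u ++ B) y : ℝ) - L (u' ++ B) y| ≤ m := by
  have := h [] B y
  simpa using this

section

variable {k : ℕ}

lemma CL_cellOf {n R : ℕ} (d d' : Fin R → Fin n → Fin k) :
    CL (cellOf d) (cellOf d') (n * ∑ r, ind (d r ≠ d' r)) := by
  induction R with
  | zero =>
    have : d = d' := Subsingleton.elim _ _
    subst this
    simpa using CL.refl (cellOf d)
  | succ R ih =>
    have e : ∀ d : Fin (R + 1) → Fin n → Fin k,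
        cellOf d = List.ofFn (d 0) ++ cellOf (Fin.tail d) := by
      intro d
      rw [← cellOf_cons, Fin.cons_self_tail]
    rw [e d, e d', Fin.sum_univ_succ, mul_add]
    refine CL.append ?_ (ih _ _)
    by_cases h : d 0 = d' 0
    · rw [h]
      exact (CL.refl _).mono (by simp)
    · refine (CL.of_length (n := n) (by simp) (by simp)).mono ?_
      rw [ind_of h, mul_one]

lemma splice_ofFn_succ {T : ℕ} (bs : Fin (T + 1) → Bool) (xs cs zs : Fin (T + 1) → List (Fin k)) :
    splice (List.ofFn bs) (List.ofFn xs) (List.ofFn cs) (List.ofFn zs) =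
      if bs 0 = true then cs 0 ++ zs 0 ++ splice (List.ofFn fun i => bs i.succ)
          (List.ofFn fun i => xs i.succ) (List.ofFn fun i => cs i.succ)
          (List.ofFn fun i => zs i.succ)
      else xs 0 ++ splice (List.ofFn fun i => bs i.succ)
          (List.ofFn fun i => xs i.succ) (List.ofFn fun i => cs i.succ)
          (List.ofFn fun i => zs i.succ) ++ zs 0 := by
  rw [List.ofFn_succ, List.ofFn_succ, List.ofFn_succ, List.ofFn_succ]
  cases h : bs 0
  · simp [splice]
  · simp [splice]

lemma splice_zero (bs : Fin 0 → Bool) (xs cs zs : Fin 0 → List (Fin k)) :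
    splice (List.ofFn bs) (List.ofFn xs) (List.ofFn cs) (List.ofFn zs) = [] := by
  simp [splice]

lemma CL_splice {T : ℕ} (bs : Fin T → Bool) (xs zs cs cs' : Fin T → List (Fin k))
    (m : Fin T → ℝ) (h : ∀ i, CL (cs i) (cs' i) (m i)) :
    CL (splice (List.ofFn bs) (List.ofFn xs) (List.ofFn cs) (List.ofFn zs))
      (splice (List.ofFn bs) (List.ofFn xs) (List.ofFn cs') (List.ofFn zs))
      (∑ i, ind (bs i = true) * m i) := by
  induction T with
  | zero => rw [splice_zero, splice_zero]; simpa using CL.refl ([] : List (Fin k))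
  | succ T ih =>
    rw [splice_ofFn_succ, splice_ofFn_succ, Fin.sum_univ_succ]
    have h1 := ih (fun i => bs i.succ) (fun i => xs i.succ) (fun i => zs i.succ)
      (fun i => cs i.succ) (fun i => cs' i.succ) (fun i => m i.succ) fun i => h i.succ
    by_cases hb : bs 0 = true
    · rw [if_pos hb, if_pos hb, ind_of hb, one_mul]
      have h2 := ((h 0).append (CL.refl (zs 0))).append h1
      exact h2.mono (by linarith)
    · rw [if_neg hb, if_neg hb, ind_of_not hb, zero_mul]
      have h2 := ((CL.refl (xs 0)).append h1).append (CL.refl (zs 0))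
      exact h2.mono (by linarith)

lemma splice_dep {T : ℕ} (bs : Fin T → Bool) (xs zs cs cs' : Fin T → List (Fin k))
    (h : ∀ i, bs i = true → cs i = cs' i) :
    splice (List.ofFn bs) (List.ofFn xs) (List.ofFn cs) (List.ofFn zs) =
      splice (List.ofFn bs) (List.ofFn xs) (List.ofFn cs') (List.ofFn zs) := by
  induction T with
  | zero => rw [splice_zero, splice_zero]
  | succ T ih =>
    rw [splice_ofFn_succ, splice_ofFn_succ]
    have h1 := ih (fun i => bs i.succ) (fun i => xs i.succ) (fun i => zs i.succ)
      (fun i => cs i.succ) (fun i => cs' i.succ) fun i => h i.succ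
    by_cases hb : bs 0 = true
    · rw [if_pos hb, if_pos hb, h1, h 0 hb]
    · rw [if_neg hb, if_neg hb, h1]

lemma splice_length {T l e : ℕ} (bs : Fin T → Bool) (xs zs cs : Fin T → List (Fin k))
    (hx : ∀ i, (xs i).length = l) (hc : ∀ i, (cs i).length = l) (hz : ∀ i, (zs i).length = e) :
    (splice (List.ofFn bs) (List.ofFn xs) (List.ofFn cs) (List.ofFn zs)).length = T * (l + e) := by
  induction T with
  | zero => rw [splice_zero]; simp
  | succ T ih =>
    rw [splice_ofFn_succ]
    have h1 := ih (fun i => bs i.succ) (fun i => xs i.succ) (fun i => zs i.succ)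
      (fun i => cs i.succ) (fun i => hx i.succ) (fun i => hc i.succ) fun i => hz i.succ
    by_cases hb : bs 0 = true
    · rw [if_pos hb]
      simp only [List.length_append, h1, hc 0, hz 0]
      ring
    · rw [if_neg hb]
      simp only [List.length_append, h1, hx 0, hz 0]
      ring

/-! ### label sums -/

lemma labSum_ofFn {T : ℕ} (bs : Fin T → Bool) (vs : List (List (Fin k))) (hvs : vs.length = T)
    (h : List (Fin k) → ℝ) :
    labSum (List.ofFn bs) vs h = ∑ i, ind (bs i = true) * h (vs.getD i []) := by
  induction T generalizing vs with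
  | zero =>
    have : vs = [] := List.length_eq_zero_iff.mp hvs
    subst this
    simp [labSum]
  | succ T ih =>
    obtain ⟨v, vs, rfl⟩ : ∃ v vs', vs = v :: vs' := by
      cases vs with
      | nil => simp at hvs
      | cons v vs' => exact ⟨v, vs', rfl⟩
    have hvs' : vs.length = T := by simpa using hvs
    rw [List.ofFn_succ, Fin.sum_univ_succ]
    have h1 := ih (fun i => bs i.succ) vs hvs'
    cases hb : bs 0
    · simp only [labSum, h1]
      simp
    · simp only [labSum, h1]
      simp

/-! ### entropy -/

/-- entropy of a block -/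
def KLb (n : ℕ) (q : List (Fin k) → List (Fin k) → ℝ) (v : List (Fin k)) (r : ℕ) : ℝ :=
  Ex k n fun x => blk n q v r x * Real.log (blk n q v r x / marg n q x)

variable {n : ℕ} {z δ b : ℝ} {q : List (Fin k) → List (Fin k) → ℝ}

lemma marg_low (hk : 0 < k) (hq : KerData k n z δ b q) {x : List (Fin k)} (hx : x.length = n) :
    Real.exp (-b) ≤ marg n q x := const_le_Ex hk fun v hv => hq.low v x hv hx

lemma marg_one (hk : 0 < k) (hq : KerData k n z δ b q) : Ex k n (marg n q) = 1 := by
  unfold marg
  rw [Ex_comm]
  rw [Ex_congr (g := fun _ => (1 : ℝ)) fun v hv => hq.one v hv, Ex_const hk]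

lemma take_drop_len {v : List (Fin k)} {r : ℕ} (h : n ≤ (v.drop (r * n)).length) :
    ((v.drop (r * n)).take n).length = n := by
  rw [List.length_take]; omega

lemma blk_low (hk : 0 < k) (hq : KerData k n z δ b q) (v : List (Fin k)) (r : ℕ)
    {x : List (Fin k)} (hx : x.length = n) : Real.exp (-b) ≤ blk n q v r x := by
  unfold blk
  split_ifs with h
  · exact hq.low _ x (take_drop_len h) hx
  · exact marg_low hk hq hx

lemma blk_pos (hk : 0 < k) (hq : KerData k n z δ b q) (v : List (Fin k)) (r : ℕ)
    {x : List (Fin k)} (hx : x.length = n) : 0 < blk n q v r x :=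
  (Real.exp_pos _).trans_le (blk_low hk hq v r hx)

lemma blk_one (hk : 0 < k) (hq : KerData k n z δ b q) (v : List (Fin k)) (r : ℕ) :
    Ex k n (blk n q v r) = 1 := by
  unfold blk
  split_ifs with h
  · exact hq.one _ (take_drop_len h)
  · exact marg_one hk hq

lemma kernR_append {R : ℕ} (v u x : List (Fin k)) (hu : u.length = n) :
    kernR n q (R + 1) v (u ++ x) = blk n q v 0 u * kernR n q R (v.drop n) x := by
  simp only [kernR, List.take_left' hu, List.drop_left' hu, blk_zero]

lemma margR_append {R : ℕ} (u x : List (Fin k)) (hu : u.length = n) :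
    margR n q (R + 1) (u ++ x) = marg n q u * margR n q R x := by
  simp only [margR, List.take_left' hu, List.drop_left' hu]

lemma kernR_pos (hk : 0 < k) (hq : KerData k n z δ b q) (R : ℕ) (v x : List (Fin k))
    (hx : x.length = R * n) : 0 < kernR n q R v x := by
  induction R generalizing v x with
  | zero => simp [kernR]
  | succ R ih =>
    have h1 : (x.take n).length = n := by
      rw [List.length_take, hx, Nat.succ_mul]; omega
    have h2 : (x.drop n).length = R * n := by
      rw [List.length_drop, hx, Nat.succ_mul]; omega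
    rw [← List.take_append_drop n x, kernR_append _ _ _ h1]
    exact mul_pos (blk_pos hk hq v 0 h1) (ih _ _ h2)

lemma margR_pos (hk : 0 < k) (hq : KerData k n z δ b q) (R : ℕ) (x : List (Fin k))
    (hx : x.length = R * n) : 0 < margR n q R x := by
  induction R generalizing x with
  | zero => simp [margR]
  | succ R ih =>
    have h1 : (x.take n).length = n := by
      rw [List.length_take, hx, Nat.succ_mul]; omega
    have h2 : (x.drop n).length = R * n := by
      rw [List.length_drop, hx, Nat.succ_mul]; omega
    rw [← List.take_append_drop n x, margR_append _ _ h1]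
    exact mul_pos ((Real.exp_pos _).trans_le (marg_low hk hq h1)) (ih _ h2)

lemma kernR_one (hk : 0 < k) (hq : KerData k n z δ b q) (R : ℕ) (v : List (Fin k)) :
    Ex k (R * n) (kernR n q R v) = 1 := by
  induction R generalizing v with
  | zero => rw [Ex_cast (Nat.zero_mul n)]; simp [kernR]
  | succ R ih =>
    rw [Ex_cast (show (R + 1) * n = n + R * n by ring), Ex_append]
    have : (Ex k n fun u => Ex k (R * n) fun x => kernR n q (R + 1) v (u ++ x)) =
        Ex k n fun u => blk n q v 0 u * 1 := by
      refine Ex_congr fun u hu => ?_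
      rw [← ih (v.drop n), ← Ex_const_mul]
      exact Ex_congr fun x _ => kernR_append v u x hu
    rw [this]
    simp only [mul_one]
    exact blk_one hk hq v 0

/-- the entropy of a cell is the sum of the entropies of the blocks -/
lemma KLv_eq (hk : 0 < k) (hq : KerData k n z δ b q) (R : ℕ) (v : List (Fin k)) :
    KLv (R * n) (kernR n q R) (margR n q R) v = ∑ r ∈ Finset.range R, KLb n q v r := by
  induction R generalizing v with
  | zero =>
    unfold KLv
    rw [Ex_cast (Nat.zero_mul n)]
    simp [kernR, margR]
  | succ R ih =>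
    rw [Finset.sum_range_succ']
    have h0 : ∀ r, KLb n q v (r + 1) = KLb n q (v.drop n) r := by
      intro r
      unfold KLb
      simp only [blk_succ]
    simp only [h0]
    rw [← ih]
    unfold KLv
    rw [Ex_cast (show (R + 1) * n = n + R * n by ring), Ex_append]
    have h1 : ∀ u x : List (Fin k), u.length = n → x.length = R * n →
        kernR n q (R + 1) v (u ++ x) *
          Real.log (kernR n q (R + 1) v (u ++ x) / margR n q (R + 1) (u ++ x)) =
        (blk n q v 0 u * Real.log (blk n q v 0 u / marg n q u)) * kernR n q R (v.drop n) x +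
        blk n q v 0 u * (kernR n q R (v.drop n) x *
          Real.log (kernR n q R (v.drop n) x / margR n q R x)) := by
      intro u x hu hx
      rw [kernR_append _ _ _ hu, margR_append _ _ hu]
      have p1 := blk_pos hk hq v 0 hu
      have p2 := kernR_pos hk hq R (v.drop n) x hx
      have p3 : 0 < marg n q u := (Real.exp_pos _).trans_le (marg_low hk hq hu)
      have p4 := margR_pos hk hq R x hx
      rw [mul_div_mul_comm, Real.log_mul (div_pos p1 p3).ne' (div_pos p2 p4).ne']
      ring
    have h2 : (Ex k n fun u => Ex k (R * n) fun x => kernR n q (R + 1) v (u ++ x) *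
        Real.log (kernR n q (R + 1) v (u ++ x) / margR n q (R + 1) (u ++ x))) =
        Ex k n fun u => (blk n q v 0 u * Real.log (blk n q v 0 u / marg n q u)) +
          blk n q v 0 u * KLv (R * n) (kernR n q R) (margR n q R) (v.drop n) := by
      refine Ex_congr fun u hu => ?_
      rw [Ex_congr (g := fun x => (blk n q v 0 u * Real.log (blk n q v 0 u / marg n q u)) *
        kernR n q R (v.drop n) x + blk n q v 0 u * (kernR n q R (v.drop n) x *
          Real.log (kernR n q R (v.drop n) x / margR n q R x))) fun x hx => h1 u x hu hx]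
      rw [Ex_add, Ex_const_mul, Ex_const_mul, kernR_one hk hq, mul_one]
      rfl
    rw [h2, Ex_add, Ex_mul_const, blk_one hk hq, one_mul, add_comm]
    rfl

/-- relative entropy of the weights of a block -/
lemma KL_blk (hk : 0 < k) (v : List (Fin k)) (r : ℕ) :
    KL (fun d : Fin n → Fin k => blk n q v r (List.ofFn d) / (k : ℝ) ^ n)
      (fun d : Fin n → Fin k => marg n q (List.ofFn d) / (k : ℝ) ^ n) = KLb n q v r := by
  unfold KL KLb
  rw [Ex_eq_sum_pi, Finset.sum_div]
  refine Finset.sum_congr rfl fun d _ => ?_
  have hp : (k : ℝ) ^ n ≠ 0 := by positivity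
  rw [div_div_div_cancel_right₀ hp]
  ring

/-! ### `Exk` -/

lemma Exk_const {l : ℕ} {K : List (Fin k) → List (Fin k) → ℝ} (hK : ∀ v, Ex k l (K v) = 1)
    (vs : List (List (Fin k))) (c : ℝ) : Exk l K vs (fun _ => c) = c := by
  induction vs with
  | nil => rfl
  | cons v vs ih =>
    show (Ex k l fun x => K v x * Exk l K vs fun _ => c) = c
    rw [ih, Ex_mul_const, hK, one_mul]

lemma Exk_add {l : ℕ} {K : List (Fin k) → List (Fin k) → ℝ} (vs : List (List (Fin k)))
    (f g : List (List (Fin k)) → ℝ) :
    Exk l K vs (fun cs => f cs + g cs) = Exk l K vs f + Exk l K vs g := by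
  induction vs generalizing f g with
  | nil => rfl
  | cons v vs ih =>
    show (Ex k l fun x => K v x * Exk l K vs fun cs => f (x :: cs) + g (x :: cs)) =
      (Ex k l fun x => K v x * Exk l K vs fun cs => f (x :: cs)) +
      Ex k l fun x => K v x * Exk l K vs fun cs => g (x :: cs)
    rw [← Ex_add]
    refine Ex_congr fun x _ => ?_
    rw [ih]; ring

lemma Exk_mono {l : ℕ} {K : List (Fin k) → List (Fin k) → ℝ}
    (hK : ∀ v x, x.length = l → 0 ≤ K v x) (vs : List (List (Fin k)))
    {f g : List (List (Fin k)) → ℝ} (h : ∀ cs, f cs ≤ g cs) : Exk l K vs f ≤ Exk l K vs g := by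
  induction vs generalizing f g with
  | nil => exact h []
  | cons v vs ih =>
    exact Ex_mono fun x hx => mul_le_mul_of_nonneg_left (ih fun cs => h _) (hK v x hx)

end

end

end UC
end Pool.Agent.LCSV
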