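import Pool.Agent.Work.MP_bec1e1_lv_h99.UCB

/-!
# UCONV, part C: the unit
-/

set_option autoImplicit false
set_option maxHeartbeats 1000000

open Filter Topology
open scoped BigOperators

namespace Pool.Agent.LCSV
namespace UC

open Pool.Agent.LCSE

noncomputable section

variable {k : ℕ}

lemma gmin_nonneg {l : ℕ} {θ : ℝ} (h1 : θ < 1) {g : List (Fin k) → ℝ}
    (hg : ∀ w, w.length = l → θ * g w ≤ 1 / 2) (w : List (Fin k)) (hw : w.length = l) :
    0 ≤ gmin θ g w := by
  unfold gmin
  have := hg w hw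
  exact div_nonneg (by linarith) (by linarith)

lemma gmin_one (hk : 0 < k) {l : ℕ} {θ : ℝ} (h1 : θ < 1) {g : List (Fin k) → ℝ}
    (hg : Ex k l g = 1) : Ex k l (gmin θ g) = 1 := by
  unfold gmin
  rw [Ex_div, Ex_sub, Ex_const hk, Ex_const_mul, hg, mul_one]
  exact div_self (by linarith)

/-- rewriting a mean over the word `V` -/
lemma luck_aux (hk : 0 < k) {l e b T : ℕ} {K : List (Fin k) → List (Fin k) → ℝ}
    (hK0 : ∀ v x, x.length = l → 0 ≤ K v x) (hK1 : ∀ v, Ex k l (K v) = 1)
    (win : List (Fin k) → List (List (Fin k))) (W : List (List (Fin k)) → List (Fin k))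
    (u2 : List (Fin k)) :
    (Ex k b fun y => Ex k (e * T) fun y₂ => Exk l K (win y) fun cs => (L (W cs) (y ++ y₂) : ℝ)) +
      (Ex k (T * l) fun v => (L u2 v : ℝ)) ≤
    Ex k (T * (l + e) + b) fun V => Exk l K (win (V.take b)) fun cs => (L (W cs ++ u2) V : ℝ) := by
  rw [Ex_cast (show T * (l + e) + b = b + (e * T + T * l) by ring), Ex_append]
  have h1 : (Ex k b fun y => Ex k (e * T) fun y₂ => Exk l K (win y) fun cs =>
      (L (W cs) (y ++ y₂) : ℝ)) + (Ex k (T * l) fun v => (L u2 v : ℝ)) =
      Ex k b fun y => Ex k (e * T) fun y₂ => Ex k (T * l) fun v => Exk l K (win y) fun cs =>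
        ((L (W cs) (y ++ y₂) : ℝ) + (L u2 v : ℝ)) := by
    simp only [Exk_add, Exk_const hK1, Ex_add, Ex_const hk]
  rw [h1]
  refine Ex_mono fun y hy => ?_
  rw [Ex_append]
  refine Ex_mono fun y₂ _ => Ex_mono fun v _ => ?_
  rw [List.take_left' hy]
  refine Exk_mono hK0 _ fun cs => ?_
  have := L_append_ge (W cs) u2 (y ++ y₂) v
  rw [List.append_assoc] at this
  exact_mod_cast this

theorem unit_of {n R T N b e : ℕ} {z δ b₁ : ℝ} {q : List (Fin k) → List (Fin k) → ℝ}
    (hk : 0 < k) (hn : 1 ≤ n) (hT : 1 ≤ T) (hN : 2 ≤ N)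
    (hq : KerData k n z δ b₁ q) (hb₁ : 0 ≤ b₁)
    (hKd : ∀ v, IsDens k (R * n) (kernR n q R v)) (hMd : IsDens k (R * n) (margR n q R))
    (hKm : ∀ (c : ℕ) (x : List (Fin k)), x.length = R * n →
      (Ex k c fun v => kernR n q R v x) = margR n q R x)
    (hg : ∀ w, w.length = R * n → 1 / (N : ℝ) * margR n q R w ≤ 1 / 2)
    (win : List (List (Fin k)) → List (Fin k) → List (List (Fin k)))
    (hwin : ∀ xs y, xs ≠ [] → OptWin xs y (win xs y))
    (hbk : b ≤ k * (T * (R * n)))
    (hUNIF : Stmt_UNIF) (hUDOM : Stmt_UDOM) (Γ D : ℝ)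
    (hluck : gam k * ((T * (R * n + e) + b : ℕ) : ℝ) + Γ ≤
      (EB (1 / (N : ℝ)) T fun bs => Exc k (R * n) (gmin (1 / (N : ℝ)) (margR n q R)) T fun xs =>
        Exs k e T fun zs => Ex k b fun y => Ex k (e * T) fun y₂ =>
          Exk (R * n) (kernR n q R) (win xs y) fun cs =>
            (L (splice bs xs cs zs) (y ++ y₂) : ℝ)) + F k b (T * (R * n)))
    (hent : (EB (1 / (N : ℝ)) T fun bs =>
      Exc k (R * n) (gmin (1 / (N : ℝ)) (margR n q R)) T fun xs =>
        Ex k b fun y => labSum bs (win xs y) (KLv (R * n) (kernR n q R) (margR n q R))) ≤ D) :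
    Nonempty (UnitData k (T * (R * n + e) + b) T R (1 / (N : ℝ)) Γ D
      (Real.log (k * (R * n : ℕ) + 1) + 1) n (b₁ + n * Real.log k) (Fin n → Fin k)
      (Om k T (R * n) e b)) := by
  have hk' : (0 : ℝ) < k := by exact_mod_cast hk
  have hkn : 0 < (k : ℝ) ^ n := by positivity
  have hN' : (2 : ℝ) ≤ N := by exact_mod_cast hN
  set θ : ℝ := 1 / (N : ℝ) with hθ
  have hθ0 : 0 ≤ θ := by positivity
  have hθ1 : θ < 1 := by
    rw [hθ, div_lt_one (by linarith)]; linarith
  set g := gmin θ (margR n q R) with hgdef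
  have hg0 : ∀ w : List (Fin k), w.length = R * n → 0 ≤ g w := gmin_nonneg hθ1 hg
  have hg1 : Ex k (R * n) g = 1 := gmin_one hk hθ1 hMd.one
  have hwl : ∀ (ω : Om k T (R * n) e b) (y : List (Fin k)), (win (xsO ω) y).length = T := by
    intro ω y
    have hne : xsO ω ≠ [] := by
      intro h
      have := xsO_length ω
      rw [h] at this
      simp at this
      omega
    rw [(hwin (xsO ω) y hne).1, xsO_length]
  -- conversions
  have cLab : ∀ (ω : Om k T (R * n) e b) (X : List Bool → ℝ),
      PW (fun _ : Fin T => bw θ) (fun bs => X (List.ofFn bs)) = EB θ T X := fun _ X =>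
    (EB_eq θ T X).symm
  refine ⟨{
    P := PO g
    S := fun d => marg n q (List.ofFn d) / (k : ℝ) ^ n
    word := fun ω bs c => splice (List.ofFn bs) (xsO ω) (cellsL c) (zsO ω) ++ u2O ω
    κ := fun ω V j d => blk n q ((win (xsO ω) (V.take b)).getD j.1 []) j.2 (List.ofFn d) /
      (k : ℝ) ^ n
    P_nonneg := ?_
    P_sum := ?_
    S_sum := ?_
    S_low := ?_
    card := ?_
    κ_nonneg := ?_
    κ_sum := ?_
    word_len := ?_
    lip := ?_
    dep := ?_
    unif := ?_
    dom := ?_
    luck := ?_
    ent := ?_ }⟩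
  · -- P_nonneg
    intro ω
    unfold PO
    refine mul_nonneg (Finset.prod_nonneg fun i _ => ?_) (by positivity)
    exact div_nonneg (hg0 _ (by simp)) (by positivity)
  · -- P_sum
    have h := sum_PO (k := k) (T := T) (l := R * n) (e := e) (b := b) g fun _ _ _ => (1 : ℝ)
    simp only [mul_one] at h
    rw [h]
    simp only [Ex_const hk, Exs_const hk, Exc_const hg1]
  · -- S_sum
    have h := Ex_eq_sum_pi (k := k) n (marg n q)
    rw [marg_one hk hq, Finset.sum_div] at h
    exact h.symm
  · -- S_low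
    intro d
    rw [le_div_iff₀ hkn]
    have h1 := marg_low hk hq (x := List.ofFn d) (by simp)
    refine le_trans (le_of_eq ?_) h1
    rw [neg_add, Real.exp_add]
    have h2 : Real.exp (-(n * Real.log k)) = ((k : ℝ) ^ n)⁻¹ := by
      rw [Real.exp_neg, ← Real.log_pow, Real.exp_log hkn]
    rw [h2]
    field_simp
  · -- card
    have h1 : (Fintype.card (Fin n → Fin k) : ℝ) = (k : ℝ) ^ n := by simp
    rw [h1]
    have h2 : (k : ℝ) ^ n = Real.exp (n * Real.log k) := by
      rw [← Real.log_pow, Real.exp_log hkn]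
    rw [h2]
    apply Real.exp_le_exp.mpr
    linarith
  · -- κ_nonneg
    intro ω V j d
    exact div_nonneg (blk_pos hk hq _ _ (by simp)).le hkn.le
  · -- κ_sum
    intro ω V j
    have h := Ex_eq_sum_pi (k := k) n (blk n q ((win (xsO ω) (V.take b)).getD j.1 []) j.2)
    rw [blk_one hk hq, Finset.sum_div] at h
    exact h.symm
  · -- word_len
    intro ω bs c
    rw [List.length_append, u2O_length]
    congr 1
    exact splice_length bs (fun i => List.ofFn (ω.1 i)) (fun i => List.ofFn (ω.2.1 i))
      (fun i => cellOf fun r => c (i, r)) (fun i => by simp) (fun i => cellOf_length _)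
      fun i => by simp
  · -- lip
    intro ω bs c c' V
    have h1 := CL_splice bs (fun i => List.ofFn (ω.1 i)) (fun i => List.ofFn (ω.2.1 i))
      (fun i => cellOf fun r => c (i, r)) (fun i => cellOf fun r => c' (i, r))
      (fun i => (n : ℝ) * ∑ r : Fin R, ind (c (i, r) ≠ c' (i, r)))
      (fun i => CL_cellOf (fun r => c (i, r)) fun r => c' (i, r))
    have h2 := h1.toL (u2O ω) V
    refine h2.trans (le_of_eq ?_)
    rw [Fintype.sum_prod_type, Finset.mul_sum]
    refine Finset.sum_congr rfl fun i _ => ?_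
    simp only [ind_and, Finset.mul_sum]
    refine Finset.sum_congr rfl fun r _ => ?_
    ring
  · -- dep
    intro ω bs c c' h
    have h1 := splice_dep bs (fun i => List.ofFn (ω.1 i)) (fun i => List.ofFn (ω.2.1 i))
      (fun i => cellOf fun r => c (i, r)) (fun i => cellOf fun r => c' (i, r)) (by
        intro i hi
        have : (fun r => c (i, r)) = fun r => c' (i, r) := by
          funext r; exact h (i, r) hi
        rw [this])
    show splice (List.ofFn bs) _ _ _ ++ u2O ω = splice (List.ofFn bs) _ _ _ ++ u2O ω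
    congr 1
  · -- unif
    intro f
    have e1 : ∀ ω : Om k T (R * n) e b, PW (fun _ : Fin T => bw θ) (fun bs =>
        PW (fun _ : Fin T × Fin R => fun d : Fin n → Fin k => marg n q (List.ofFn d) / (k : ℝ) ^ n)
          fun c => f (splice (List.ofFn bs) (xsO ω) (cellsL c) (zsO ω) ++ u2O ω)) =
        EB θ T fun bs => Exc k (R * n) (margR n q R) T fun cs =>
          f (splice bs (xsO ω) cs (zsO ω) ++ u2O ω) := by
      intro ω
      rw [EB_eq]
      refine PW_congr fun bs => ?_
      exact PW_Exc n q R T fun cs => f (splice (List.ofFn bs) (xsO ω) cs (zsO ω) ++ u2O ω)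
    simp only [e1]
    rw [sum_PO g fun xs zs u2 => EB θ T fun bs => Exc k (R * n) (margR n q R) T fun cs =>
          f (splice bs xs cs zs ++ u2)]
    have e2 : (Exc k (R * n) g T fun xs => Exs k e T fun zs => Ex k b fun u2 => EB θ T fun bs =>
        Exc k (R * n) (margR n q R) T fun cs => f (splice bs xs cs zs ++ u2)) =
        EB θ T fun bs => Exc k (R * n) g T fun xs => Exc k (R * n) (margR n q R) T fun cs =>
          Exs k e T fun zs => Ex k b fun u2 => f (splice bs xs cs zs ++ u2) := by
      rw [(isFS_EB θ T).comm (isFS_Exc (R * n) g T)]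
      refine Exc_congr fun xs _ => ?_
      have e3 : (fun zs => Ex k b fun u2 => EB θ T fun bs =>
          Exc k (R * n) (margR n q R) T fun cs => f (splice bs xs cs zs ++ u2)) =
          fun zs => EB θ T fun bs => Exc k (R * n) (margR n q R) T fun cs => Ex k b fun u2 =>
            f (splice bs xs cs zs ++ u2) := by
        funext zs
        rw [(isFS_Ex k b).comm (isFS_EB θ T)]
        refine EB_congr fun bs _ => ?_
        rw [Ex_Exc_comm]
      rw [e3, (isFS_Exs e T).comm (isFS_EB θ T)]
      refine EB_congr fun bs _ => ?_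
      rw [(isFS_Exs e T).comm (isFS_Exc (R * n) (margR n q R) T)]
    rw [e2, hUNIF k (R * n) e T θ (margR n q R) (fun s => Ex k b fun u2 => f (s ++ u2)) hk hθ1 hMd,
      ← Ex_append]
  · -- dom
    intro ω f hf
    have hne : Nonempty (Fin T × Fin R → Fin n → Fin k) := ⟨fun _ _ => ⟨0, hk⟩⟩
    set dec : List (List (Fin k)) → (Fin T × Fin R → Fin n → Fin k) :=
      Function.invFun cellsL with hdec
    have hd : ∀ c, dec (cellsL c) = c := Function.leftInverse_invFun cellsL_injective
    have e1 : ∀ V : List (Fin k), PW (fun j : Fin T × Fin R => fun d : Fin n → Fin k =>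
        blk n q ((win (xsO ω) (V.take b)).getD j.1 []) j.2 (List.ofFn d) / (k : ℝ) ^ n) f =
        Exk (R * n) (kernR n q R) (win (xsO ω) (V.take b)) fun cs => f (dec cs) := by
      intro V
      rw [← PW_Exk n q R T _ (hwl ω _) fun cs => f (dec cs)]
      exact PW_congr fun c => by rw [hd]
    have e2 : PW (fun _ : Fin T × Fin R => fun d : Fin n → Fin k =>
        marg n q (List.ofFn d) / (k : ℝ) ^ n) f =
        Exc k (R * n) (margR n q R) T fun cs => f (dec cs) := by
      rw [← PW_Exc n q R T fun cs => f (dec cs)]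
      exact PW_congr fun c => by rw [hd]
    rw [e2]
    simp only [e1]
    rw [Ex_take hk (show b ≤ T * (R * n + e) + b by omega) fun y =>
      Exk (R * n) (kernR n q R) (win (xsO ω) y) fun cs => f (dec cs)]
    have hne' : xsO ω ≠ [] := by
      intro h
      have := xsO_length ω
      rw [h] at this
      simp at this
      omega
    exact hUDOM k (R * n) T b (kernR n q R) (margR n q R) (xsO ω) (fun cs => f (dec cs))
      (win (xsO ω)) hk hT hbk (fun v c hc => (hKd v).nonneg c hc) (fun m c hc => hKm m c hc)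
      (fun cs => hf _) (fun y _ => hwin _ y hne') (xsO_length ω)
  · -- luck
    have e1 : ∀ ω : Om k T (R * n) e b, PW (fun _ : Fin T => bw θ) (fun bs =>
        Ex k (T * (R * n + e) + b) fun V => PW (fun j : Fin T × Fin R => fun d : Fin n → Fin k =>
          blk n q ((win (xsO ω) (V.take b)).getD j.1 []) j.2 (List.ofFn d) / (k : ℝ) ^ n)
          fun c => (L (splice (List.ofFn bs) (xsO ω) (cellsL c) (zsO ω) ++ u2O ω) V : ℝ)) =
        EB θ T fun bs => Ex k (T * (R * n + e) + b) fun V =>
          Exk (R * n) (kernR n q R) (win (xsO ω) (V.take b)) fun cs =>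
            (L (splice bs (xsO ω) cs (zsO ω) ++ u2O ω) V : ℝ) := by
      intro ω
      rw [EB_eq]
      refine PW_congr fun bs => ?_
      refine Ex_congr fun V _ => ?_
      exact PW_Exk n q R T _ (hwl ω _) fun cs =>
        (L (splice (List.ofFn bs) (xsO ω) cs (zsO ω) ++ u2O ω) V : ℝ)
    simp only [e1]
    rw [sum_PO g fun xs zs u2 => EB θ T fun bs => Ex k (T * (R * n + e) + b) fun V =>
          Exk (R * n) (kernR n q R) (win xs (V.take b)) fun cs =>
            (L (splice bs xs cs zs ++ u2) V : ℝ)]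
    refine hluck.trans ?_
    have e2 : (EB θ T fun bs => Exc k (R * n) g T fun xs =>
        Exs k e T fun zs => Ex k b fun y => Ex k (e * T) fun y₂ =>
          Exk (R * n) (kernR n q R) (win xs y) fun cs =>
            (L (splice bs xs cs zs) (y ++ y₂) : ℝ)) + F k b (T * (R * n)) =
        Exc k (R * n) g T fun xs => Exs k e T fun zs => Ex k b fun u2 => EB θ T fun bs =>
          ((Ex k b fun y => Ex k (e * T) fun y₂ =>
            Exk (R * n) (kernR n q R) (win xs y) fun cs =>
            (L (splice bs xs cs zs) (y ++ y₂) : ℝ)) + Ex k (T * (R * n)) fun v => (L u2 v : ℝ)) := by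
      simp only [EB_add, EB_const, Ex_add, Ex_const hk, Exs_add, Exs_const hk, Exc_add,
        Exc_const hg1]
      congr 1
      rw [(isFS_EB θ T).comm (isFS_Exc (R * n) g T)]
      refine Exc_congr fun xs _ => ?_
      rw [(isFS_EB θ T).comm (isFS_Exs e T)]
    rw [e2]
    refine Exc_mono hg0 fun xs _ => Exs_mono fun zs _ => Ex_mono fun u2 _ =>
      EB_mono hθ0 hθ1.le fun bs _ => ?_
    exact luck_aux hk (fun v x hx => (hKd v).nonneg x hx) (fun v => (hKd v).one)
      (fun y => win xs y) (fun cs => splice bs xs cs zs) u2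
  · -- ent
    have e1 : ∀ ω : Om k T (R * n) e b, PW (fun _ : Fin T => bw θ) (fun bs =>
        Ex k (T * (R * n + e) + b) fun V => ∑ j : Fin T × Fin R, ind (bs j.1 = true) *
          KL (fun d : Fin n → Fin k =>
            blk n q ((win (xsO ω) (V.take b)).getD j.1 []) j.2 (List.ofFn d) / (k : ℝ) ^ n)
            (fun d : Fin n → Fin k => marg n q (List.ofFn d) / (k : ℝ) ^ n)) =
        EB θ T fun bs => Ex k b fun y =>
          labSum bs (win (xsO ω) y) (KLv (R * n) (kernR n q R) (margR n q R)) := by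
      intro ω
      rw [EB_eq]
      refine PW_congr fun bs => ?_
      rw [← Ex_take hk (show b ≤ T * (R * n + e) + b by omega) fun y =>
        labSum (List.ofFn bs) (win (xsO ω) y) (KLv (R * n) (kernR n q R) (margR n q R))]
      refine Ex_congr fun V _ => ?_
      rw [labSum_ofFn bs _ (hwl ω _), Fintype.sum_prod_type]
      refine Finset.sum_congr rfl fun i _ => ?_
      rw [KLv_eq hk hq, Finset.mul_sum, Finset.sum_range]
      refine Finset.sum_congr rfl fun r _ => ?_
      rw [KL_blk hk]
    simp only [e1]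
    rw [sum_PO g fun xs _ _ => EB θ T fun bs => Ex k b fun y =>
          labSum bs (win xs y) (KLv (R * n) (kernR n q R) (margR n q R))]
    simp only [Ex_const hk, Exs_const hk]
    rw [(isFS_Exc (R * n) g T).comm (isFS_EB θ T)]
    exact hent

end

end UC
end Pool.Agent.LCSV
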